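import Pool.Agent.Helper48.AX.Defs
import Pool.Agent.Helper48.AX.Q
import Pool.Agent.Helper2.AX.HB
import Pool.Agent.Helper2.AX.KAL
import Pool.Agent.Helper22.AX.KIRS
import Pool.Agent.Helper22.AX.MONO
import Pool.Agent.Helper22.AX.TSUP
import Pool.Agent.Helper42.AX.CPX
import Pool.Agent.Helper50.AX.HA
import Pool.Agent.Helper50.AX.MIN
import Pool.Agent.Helper57.AX.HC
import Pool.Agent.Helper57.AX.HULL
import Pool.Agent.Helper57.AX.TOUR
import Pool.Agent.Helper60.AX.FORM
import Pool.Agent.Helper7.AX.QS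
import Pool.Agent.Helper97.AX.ARC
import Pool.Agent.Helper97.AX.PER

/-! All statements `AX.ST_*` which are proved, without hypotheses. -/

set_option autoImplicit false

namespace E5

theorem axARC : AX.ST_ARC := AX.st_ARC
theorem axTSUP : AX.ST_TSUP := AX.st_TSUP
theorem axPER : AX.ST_PER := AX.st_PER AX.st_ARC
theorem axHA : AX.ST_HA := AX.st_HA axTSUP
theorem axHB : AX.ST_HB := AX.st_HB axTSUP
theorem axHC : AX.ST_HC := AX.st_HC
theorem axHULL : AX.ST_HULL := AX.st_HULL axHA axHB axHC axTSUP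
theorem axFORM : AX.ST_FORM := AX.st_FORM axHULL axPER
theorem axQS : AX.ST_QS := AX.st_QS
theorem axQ : AX.ST_Q := AX.st_Q axQS
theorem axKAL : AX.ST_KAL := AX.st_KAL
theorem axMONO : AX.ST_MONO := AX.st_MONO
theorem axKIRS : AX.ST_KIRS := AX.st_KIRS
theorem axMIN : AX.ST_MIN := AX.st_MIN
theorem axTOUR : AX.ST_TOUR := AX.st_TOUR axFORM axQ axKAL axTSUP
theorem axCPX : AX.ST_CPX := AX.st_CPX axKIRS axMIN axMONO axFORM axTOUR

end E5
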