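import Pool.Agent.Helper71.E5.WDefs

/-!
MP_efd95c_co, wheels of type C: everything as statements about real numbers.

Names: hub `0`; `q` is a fan with radii `ra, rx, ry, rb` and gaps `b1 = a0x`, `b2 = x0y`, `b3 = y0b`;
`p` is a wheel with radii `Ra, Rx, Ry, Rb`, rim order `a, y, x, b` and hub angles
`t1 = ay`, `t2 = yx`, `t3 = xb`, `t4 = ab`.
-/

set_option autoImplicit false

open scoped MeasureTheory ENNReal Topology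
open Complex

noncomputable section

namespace E5

/-- `1 / sin (arc)` for the chord `ch r s θ` -/
def omc (r s θ : ℝ) : ℝ := 2 / (ch r s θ * Real.sqrt (4 - ch r s θ ^ 2))

/-- a triple of points with half arcs `x, y, z` in strictly r-convex position -/
def RC (x y z : ℝ) : Prop := x < y + z ∧ y < x + z ∧ z < x + y ∧ x + y + z < Real.pi

/-- the fan of `q` (full: all triples are in strictly r-convex position) -/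
structure WQD (ra rx ry rb b1 b2 b3 : ℝ) : Prop where
  ra0 : 0 < ra
  rx0 : 0 < rx
  ry0 : 0 < ry
  rb0 : 0 < rb
  ra2 : ra < 2
  rx2 : rx < 2
  ry2 : ry < 2
  rb2 : rb < 2
  b10 : 0 < b1
  b20 : 0 < b2
  b30 : 0 < b3
  bs : b1 + b2 + b3 < Real.pi
  cax2 : ch ra rx b1 < 2
  cxy2 : ch rx ry b2 < 2
  cyb2 : ch ry rb b3 < 2
  cay2 : ch ra ry (b1 + b2) < 2
  cxb2 : ch rx rb (b2 + b3) < 2
  cab2 : ch ra rb (b1 + b2 + b3) < 2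
  q0ax : RC (h0 ra) (h0 rx) (hd ra rx b1)
  q0xy : RC (h0 rx) (h0 ry) (hd rx ry b2)
  q0yb : RC (h0 ry) (h0 rb) (hd ry rb b3)
  q0ay : RC (h0 ra) (h0 ry) (hd ra ry (b1 + b2))
  q0xb : RC (h0 rx) (h0 rb) (hd rx rb (b2 + b3))
  q0ab : RC (h0 ra) (h0 rb) (hd ra rb (b1 + b2 + b3))
  qaxy : RC (hd ra rx b1) (hd rx ry b2) (hd ra ry (b1 + b2))
  qxyb : RC (hd rx ry b2) (hd ry rb b3) (hd rx rb (b2 + b3))
  qaxb : RC (hd ra rx b1) (hd rx rb (b2 + b3)) (hd ra rb (b1 + b2 + b3))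
  qayb : RC (hd ra ry (b1 + b2)) (hd ry rb b3) (hd ra rb (b1 + b2 + b3))
  /- exterior angles and order of the arcs at the vertices -/
  q0 : b1 + b2 + b3 + h0 ra + h0 rb < Real.pi
  qa : UU ra rx b1 + h0 ra < Real.pi
  qx : UU rx ra b1 + UU rx ry b2 < Real.pi
  qy : UU ry rx b2 + UU ry rb b3 < Real.pi
  qb : UU rb ry b3 + h0 rb < Real.pi
  a1 : h0 ra < UU ra rb (b1 + b2 + b3)
  a2 : UU ra rb (b1 + b2 + b3) < UU ra ry (b1 + b2)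
  a3 : UU ra ry (b1 + b2) < UU ra rx b1
  x1 : h0 rx < UU rx ra b1
  x2 : h0 rx < UU rx rb (b2 + b3)
  x3 : UU rx rb (b2 + b3) < UU rx ry b2
  x4 : 2 * hd rx rb (b2 + b3) < UU rx rb (b2 + b3) + UU rx ra b1
  y1 : h0 ry < UU ry rb b3
  y2 : h0 ry < UU ry ra (b1 + b2)
  y3 : UU ry ra (b1 + b2) < UU ry rx b2
  y4 : 2 * hd ry ra (b1 + b2) < UU ry ra (b1 + b2) + UU ry rb b3
  z1 : h0 rb < UU rb ra (b1 + b2 + b3)
  z2 : UU rb ra (b1 + b2 + b3) < UU rb rx (b2 + b3)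
  z3 : UU rb rx (b2 + b3) < UU rb ry b3
  /- chord angles -/
  ua1 : un ra rb (b1 + b2 + b3) < un ra ry (b1 + b2)
  ua2 : un ra ry (b1 + b2) < un ra rx b1
  ux1 : un rx rb (b2 + b3) < un rx ry b2
  ux2 : un rx ra b1 + un rx ry b2 < Real.pi
  uy1 : un ry ra (b1 + b2) < un ry rx b2
  uy2 : un ry rx b2 + un ry rb b3 < Real.pi
  uz1 : un rb ra (b1 + b2 + b3) < un rb rx (b2 + b3)
  uz2 : un rb rx (b2 + b3) < un rb ry b3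
  /- lenses at the hub -/
  l1 : h0 ra < b1 + h0 rx
  l2 : h0 rx < b1 + h0 ra
  l3 : h0 rx < b2 + h0 ry
  l4 : h0 ry < b2 + h0 rx
  l5 : h0 ry < b3 + h0 rb
  l6 : h0 rb < b3 + h0 ry
  /- quadrilateral inequalities (diagonals on the right) -/
  k1 : h0 rx + hd ry rb b3 < h0 ry + hd rx rb (b2 + b3)
  k2 : h0 ry + hd ra rx b1 < h0 rx + hd ra ry (b1 + b2)
  k3 : h0 ra + hd rx rb (b2 + b3) < h0 rx + hd ra rb (b1 + b2 + b3)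
  k4 : h0 rb + hd ra rx b1 < h0 rx + hd ra rb (b1 + b2 + b3)
  k5 : h0 rb + hd ra ry (b1 + b2) < h0 ry + hd ra rb (b1 + b2 + b3)
  k6 : h0 ra + hd ry rb b3 < h0 ry + hd ra rb (b1 + b2 + b3)
  k7 : hd ra rx b1 + hd ry rb b3 < hd ra ry (b1 + b2) + hd rx rb (b2 + b3)
  k8 : hd rx ry b2 + hd ra rb (b1 + b2 + b3) < hd ra ry (b1 + b2) + hd rx rb (b2 + b3)
  k9 : h0 ra + hd rx ry b2 < h0 rx + hd ra ry (b1 + b2)
  k10 : h0 rb + hd rx ry b2 < h0 ry + hd rx rb (b2 + b3)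
  /- (V3) at `b` for `0, a, y` and `0, x, y`; at `a` for `0, b, x` and `0, y, x` -/
  vb1 : Real.cos (hd rb ra (b1 + b2 + b3)) * Real.sin (un rb ry b3) <
    Real.cos (hd rb ry b3) * Real.sin (un rb ra (b1 + b2 + b3)) +
    Real.cos (h0 rb) * Real.sin (un rb ry b3 - un rb ra (b1 + b2 + b3))
  vb2 : Real.cos (hd rb rx (b2 + b3)) * Real.sin (un rb ry b3) <
    Real.cos (hd rb ry b3) * Real.sin (un rb rx (b2 + b3)) +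
    Real.cos (h0 rb) * Real.sin (un rb ry b3 - un rb rx (b2 + b3))
  va1 : Real.cos (hd ra rb (b1 + b2 + b3)) * Real.sin (un ra rx b1) <
    Real.cos (hd ra rx b1) * Real.sin (un ra rb (b1 + b2 + b3)) +
    Real.cos (h0 ra) * Real.sin (un ra rx b1 - un ra rb (b1 + b2 + b3))
  va2 : Real.cos (hd ra ry (b1 + b2)) * Real.sin (un ra rx b1) <
    Real.cos (hd ra rx b1) * Real.sin (un ra ry (b1 + b2)) +
    Real.cos (h0 ra) * Real.sin (un ra rx b1 - un ra ry (b1 + b2))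

/-- the wheel of `p` -/
structure WPD (Ra Rx Ry Rb t1 t2 t3 t4 : ℝ) : Prop where
  Ra0 : 0 < Ra
  Rx0 : 0 < Rx
  Ry0 : 0 < Ry
  Rb0 : 0 < Rb
  Ra2 : Ra < 2
  Rx2 : Rx < 2
  Ry2 : Ry < 2
  Rb2 : Rb < 2
  t10 : 0 < t1
  t20 : 0 < t2
  t30 : 0 < t3
  t40 : 0 < t4
  t1p : t1 < Real.pi
  t2p : t2 < Real.pi
  t3p : t3 < Real.pi
  t4p : t4 < Real.pi
  ts : t1 + t2 + t3 + t4 = 2 * Real.pi
  pay : ch Ra Ry t1 < 2
  pyx : ch Ry Rx t2 < 2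
  pxb : ch Rx Rb t3 < 2
  pab : ch Ra Rb t4 < 2
  pax : ch Ra Rx (t1 + t2) < 2
  pyb : ch Ry Rb (t2 + t3) < 2
  /- the rim is weakly r-convex (equality: kink) -/
  ea : UU Ra Ry t1 + UU Ra Rb t4 ≤ Real.pi
  ey : UU Ry Ra t1 + UU Ry Rx t2 ≤ Real.pi
  ex : UU Rx Ry t2 + UU Rx Rb t3 ≤ Real.pi
  eb : UU Rb Rx t3 + UU Rb Ra t4 ≤ Real.pi
  /- no two adjacent kinks -/
  nay : UU Ra Ry t1 + UU Ra Rb t4 < Real.pi ∨ UU Ry Ra t1 + UU Ry Rx t2 < Real.pi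
  nyx : UU Ry Ra t1 + UU Ry Rx t2 < Real.pi ∨ UU Rx Ry t2 + UU Rx Rb t3 < Real.pi
  nxb : UU Rx Ry t2 + UU Rx Rb t3 < Real.pi ∨ UU Rb Rx t3 + UU Rb Ra t4 < Real.pi
  nab : UU Ra Ry t1 + UU Ra Rb t4 < Real.pi ∨ UU Rb Rx t3 + UU Rb Ra t4 < Real.pi
  /- flat interior angles -/
  fa : un Ra Ry t1 + un Ra Rb t4 < Real.pi
  fy : un Ry Ra t1 + un Ry Rx t2 < Real.pi
  fx : un Rx Ry t2 + un Rx Rb t3 < Real.pi
  fb : un Rb Rx t3 + un Rb Ra t4 < Real.pi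
  /- the hub is inside the unit disks which bound the r-hull -/
  hay : h0 Ra < UU Ra Ry t1
  hya : h0 Ry < UU Ry Ra t1
  hyx : h0 Ry < UU Ry Rx t2
  hxy : h0 Rx < UU Rx Ry t2
  hxb : h0 Rx < UU Rx Rb t3
  hbx : h0 Rb < UU Rb Rx t3
  hab : h0 Ra < UU Ra Rb t4
  hba : h0 Rb < UU Rb Ra t4
  /- (H) -/
  Hay : hd Ra Ry t1 < h0 Ra + h0 Ry
  Hyx : hd Ry Rx t2 < h0 Ry + h0 Rx
  Hxb : hd Rx Rb t3 < h0 Rx + h0 Rb
  Hab : hd Ra Rb t4 < h0 Ra + h0 Rb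

/-- geometric data of a maximal pair of type C -/
structure WD (ra rx ry rb Ra Rx Ry Rb b1 b2 b3 t1 t2 t3 t4 : ℝ) : Prop where
  q : WQD ra rx ry rb b1 b2 b3
  p : WPD Ra Rx Ry Rb t1 t2 t3 t4
  /- contraction -/
  ca : ra ≤ Ra
  cx : rx ≤ Rx
  cy : ry ≤ Ry
  cb : rb ≤ Rb
  cay : ch ra ry (b1 + b2) ≤ ch Ra Ry t1
  cyx : ch ry rx b2 ≤ ch Ry Rx t2
  cxb : ch rx rb (b2 + b3) ≤ ch Rx Rb t3
  cab : ch ra rb (b1 + b2 + b3) ≤ ch Ra Rb t4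
  /- (G1) the rim diagonals are slack -/
  cax : ch ra rx b1 < ch Ra Rx (t1 + t2)
  cyb : ch ry rb b3 < ch Ry Rb (t2 + t3)
  /- the pair violates the theorem -/
  pos : hd Ra Ry t1 + hd Ry Rx t2 + hd Rx Rb t3 + hd Ra Rb t4 <
    h0 ra + h0 rb + hd ra rx b1 + hd rx ry b2 + hd ry rb b3
  /- an end kink with a slack spoke (otherwise a maximal pair with three touching circles) -/
  ga : ra < Ra → Rb = rb → Ry = ry → Rx = rx → ch ra ry (b1 + b2) = ch Ra Ry t1 →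
    ch ra rb (b1 + b2 + b3) = ch Ra Rb t4 → UU Ra Ry t1 + UU Ra Rb t4 = Real.pi →
    t1 + t4 < (b1 + b2) + (b1 + b2 + b3)
  gb : rb < Rb → Ra = ra → Rx = rx → Ry = ry → ch rx rb (b2 + b3) = ch Rx Rb t3 →
    ch ra rb (b1 + b2 + b3) = ch Ra Rb t4 → UU Rb Rx t3 + UU Rb Ra t4 = Real.pi →
    t3 + t4 < (b2 + b3) + (b1 + b2 + b3)
  /- two folds (patterns `yx`, `xb`, `ay`, all spokes tight) -/
  fyx : Ra = ra → Rx = rx → Ry = ry → Rb = rb → t1 = b1 + b2 → t3 = b2 + b3 →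
    t4 = b1 + b2 + b3 → Real.pi < (b1 + b2) + (b1 + b2 + b3) ∧
      Real.pi < (b2 + b3) + (b1 + b2 + b3)
  fxb : Ra = ra → Rx = rx → Ry = ry → Rb = rb → t1 = b1 + b2 → t2 = b2 →
    t4 = b1 + b2 + b3 → Real.pi < (b1 + b2) + (b1 + b2 + b3)
  fay : Ra = ra → Rx = rx → Ry = ry → Rb = rb → t3 = b2 + b3 → t2 = b2 →
    t4 = b1 + b2 + b3 → Real.pi < (b2 + b3) + (b1 + b2 + b3)

/-- stresses of a maximal pair of type C: spokes `w0a, w0x, w0y, w0b`, rim edges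
`way, wyx, wxb, wab`, weights `χa, χx, χy, χb` of the tours which avoid a kink -/
structure WW (ra rx ry rb Ra Rx Ry Rb b1 b2 b3 t1 t2 t3 t4 : ℝ)
    (w0a w0x w0y w0b way wyx wxb wab χa χx χy χb : ℝ) : Prop where
  n0a : 0 ≤ w0a
  n0x : 0 ≤ w0x
  n0y : 0 ≤ w0y
  n0b : 0 ≤ w0b
  nay : 0 ≤ way
  nyx : 0 ≤ wyx
  nxb : 0 ≤ wxb
  nab : 0 ≤ wab
  c0a : w0a ≠ 0 → Ra = ra
  c0x : w0x ≠ 0 → Rx = rx
  c0y : w0y ≠ 0 → Ry = ry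
  c0b : w0b ≠ 0 → Rb = rb
  cay : way ≠ 0 → ch ra ry (b1 + b2) = ch Ra Ry t1
  cyx : wyx ≠ 0 → ch ry rx b2 = ch Ry Rx t2
  cxb : wxb ≠ 0 → ch rx rb (b2 + b3) = ch Rx Rb t3
  cab : wab ≠ 0 → ch ra rb (b1 + b2 + b3) = ch Ra Rb t4
  χa0 : 0 ≤ χa ∧ χa ≤ 1
  χx0 : 0 ≤ χx ∧ χx ≤ 1
  χy0 : 0 ≤ χy ∧ χy ≤ 1
  χb0 : 0 ≤ χb ∧ χb ≤ 1
  χas : χa ≠ 0 → UU Ra Ry t1 + UU Ra Rb t4 = Real.pi
  χxs : χx ≠ 0 → UU Rx Ry t2 + UU Rx Rb t3 = Real.pi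
  χys : χy ≠ 0 → UU Ry Ra t1 + UU Ry Rx t2 = Real.pi
  χbs : χb ≠ 0 → UU Rb Rx t3 + UU Rb Ra t4 = Real.pi
  QA : (w0a : ℂ) * ra + way * (ra - ry * AX.e (b1 + b2)) + wab * (ra - rb * AX.e (b1 + b2 + b3)) =
    ((1 / Real.cos (h0 ra) : ℝ) : ℂ) + omc ra rx b1 * (ra - rx * AX.e b1)
  QB : (w0b : ℂ) * rb + wxb * (rb - rx * AX.e (b2 + b3)) + wab * (rb - ra * AX.e (b1 + b2 + b3)) =
    ((1 / Real.cos (h0 rb) : ℝ) : ℂ) + omc rb ry b3 * (rb - ry * AX.e b3)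
  QX : (w0x : ℂ) * rx + wyx * (rx - ry * AX.e b2) + wxb * (rx - rb * AX.e (b2 + b3)) =
    omc rx ra b1 * (rx - ra * AX.e (-b1)) + omc rx ry b2 * (rx - ry * AX.e b2)
  QY : (w0y : ℂ) * ry + wyx * (ry - rx * AX.e b2) + way * (ry - ra * AX.e (b1 + b2)) =
    omc ry rb b3 * (ry - rb * AX.e (-b3)) + omc ry rx b2 * (ry - rx * AX.e b2)
  Q0 : (w0a : ℂ) * ra + w0x * rx * AX.e b1 + w0y * ry * AX.e (b1 + b2) +
    w0b * rb * AX.e (b1 + b2 + b3) =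
    ((1 / Real.cos (h0 ra) : ℝ) : ℂ) + ((1 / Real.cos (h0 rb) : ℝ) : ℂ) * AX.e (b1 + b2 + b3)
  PA : (w0a : ℂ) * Ra + way * (Ra - Ry * AX.e t1) + wab * (Ra - Rb * AX.e (-t4)) =
    (1 - χa) * (1 - χy) * omc Ra Ry t1 * (Ra - Ry * AX.e t1) +
    (1 - χa) * (1 - χb) * omc Ra Rb t4 * (Ra - Rb * AX.e (-t4)) +
    (χy + χb) * omc Ra Rx (t1 + t2) * (Ra - Rx * AX.e (t1 + t2))
  PB : (w0b : ℂ) * Rb + wxb * (Rb - Rx * AX.e t3) + wab * (Rb - Ra * AX.e (-t4)) =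
    (1 - χb) * (1 - χx) * omc Rb Rx t3 * (Rb - Rx * AX.e t3) +
    (1 - χb) * (1 - χa) * omc Rb Ra t4 * (Rb - Ra * AX.e (-t4)) +
    (χx + χa) * omc Rb Ry (t2 + t3) * (Rb - Ry * AX.e (t2 + t3))
  PX : (w0x : ℂ) * Rx + wyx * (Rx - Ry * AX.e t2) + wxb * (Rx - Rb * AX.e (-t3)) =
    (1 - χx) * (1 - χy) * omc Rx Ry t2 * (Rx - Ry * AX.e t2) +
    (1 - χx) * (1 - χb) * omc Rx Rb t3 * (Rx - Rb * AX.e (-t3)) +
    (χy + χb) * omc Rx Ra (t1 + t2) * (Rx - Ra * AX.e (t1 + t2))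
  PY : (w0y : ℂ) * Ry + wyx * (Ry - Rx * AX.e t2) + way * (Ry - Ra * AX.e (-t1)) =
    (1 - χy) * (1 - χx) * omc Ry Rx t2 * (Ry - Rx * AX.e t2) +
    (1 - χy) * (1 - χa) * omc Ry Ra t1 * (Ry - Ra * AX.e (-t1)) +
    (χx + χa) * omc Ry Rb (t2 + t3) * (Ry - Rb * AX.e (t2 + t3))
  P0 : (w0a : ℂ) * Ra + w0y * Ry * AX.e t1 + w0x * Rx * AX.e (t1 + t2) +
    w0b * Rb * AX.e (-t4) = 0

end E5
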