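import Pool.Agent.Helper71.E5.WStmts
import Pool.Agent.Helper71.E5.WReal

/-!
MP_efd95c_co, wheels: module statements, part 2 (type C: from the pair to real numbers).
Table efd5wrows.
-/

set_option autoImplicit false

open scoped MeasureTheory ENNReal Topology
open Complex

noncomputable section

namespace E5

/-- hull weights of `q` (cycle `0, 1, 2, 3, 4`) -/
def KQ (q : Fin 5 → ℂ) (i j : Fin 5) : ℝ :=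
  if j = i + 1 ∨ i = j + 1 then om (q i) (q j) else 0

/-- effective hull weights of `p`, order `1, 3, 2, 4` (type C), no adjacent kinks -/
def KC (p : Fin 5 → ℂ) (χ : Fin 5 → ℝ) (i j : Fin 5) : ℝ :=
  if i = 0 ∨ j = 0 ∨ i = j then 0
  else if (i = 1 ∧ j = 2) ∨ (i = 2 ∧ j = 1) then (χ 3 + χ 4) * om (p i) (p j)
  else if (i = 3 ∧ j = 4) ∨ (i = 4 ∧ j = 3) then (χ 1 + χ 2) * om (p i) (p j)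
  else (1 - χ i) * (1 - χ j) * om (p i) (p j)

/-- no two adjacent kinks (rim of four points, hub `o`) -/
def ST_NKA : Prop := ∀ (p q : Fin 5 → ℂ) (gp : ℤ → Fin 5) (ap bp : ℤ → ℝ)
  (gq : ℤ → Fin 5) (aq bq : ℤ → ℝ) (o : Fin 5), MaxPair p q → HD p 4 gp ap bp →
  HD q 5 gq aq bq → (∀ k, aq k < bq k) → (∀ k, gp k ≠ o) →
  ∀ k, ap k < bp k ∨ ap (k + 1) < bp (k + 1)

/-- the effective loads of `p` -/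
def ST_KCC : Prop := ∀ (p : Fin 5 → ℂ) (ap bp : ℤ → ℝ) (θ : Finset (Fin 5) → ℝ),
  HD p 4 gC ap bp → (∀ k, ap k < bp k ∨ ap (k + 1) < bp (k + 1)) → (∀ S, 0 ≤ θ S) →
  ∑ S, θ S = 1 → (∀ S, θ S ≠ 0 → Adm gC ap bp S) →
  ∃ χ : Fin 5 → ℝ, (∀ i, 0 ≤ χ i ∧ χ i ≤ 1) ∧ χ 0 = 0 ∧ (∀ k, χ (gC k) ≠ 0 → ap k = bp k) ∧
    ∀ i, ∑ S, (θ S : ℂ) * cgrad p (lst gC 4 S) i = ∑ j, (KC p χ i j : ℂ) * (p i - p j)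

/-- the loads of `q` -/
def ST_KQQ : Prop := ∀ (q : Fin 5 → ℂ) (i : Fin 5),
  cgrad q (lst gQ 5 Finset.univ) i = ∑ j, (KQ q i j : ℂ) * (q i - q j)

/-- real data of `q` -/
def ST_RQ : Prop := ∀ (q : Fin 5 → ℂ) (aq bq : ℤ → ℝ), HD q 5 gQ aq bq →
  (∀ k, aq k < bq k) → q 0 = 0 →
  ∃ φ b1 b2 b3 : ℝ, q 1 = (‖q 1‖ : ℂ) * AX.e φ ∧ q 2 = (‖q 2‖ : ℂ) * AX.e (φ + b1) ∧
    q 3 = (‖q 3‖ : ℂ) * AX.e (φ + b1 + b2) ∧ q 4 = (‖q 4‖ : ℂ) * AX.e (φ + b1 + b2 + b3) ∧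
    WQD ‖q 1‖ ‖q 2‖ ‖q 3‖ ‖q 4‖ b1 b2 b3

/-- real data of `p` -/
def ST_RP : Prop := ∀ (p : Fin 5 → ℂ) (ap bp : ℤ → ℝ), HD p 4 gC ap bp → p 0 = 0 →
  (∀ k, 0 < crs (p (gC k)) (p (gC (k + 1)))) →
  (∀ k, lg (p (gC k)) (p (gC (k + 1))) < lg (p (gC k)) 0 + lg 0 (p (gC (k + 1)))) →
  (∀ k, ap k < bp k ∨ ap (k + 1) < bp (k + 1)) →
  ∃ φ t1 t2 t3 t4 : ℝ, p 1 = (‖p 1‖ : ℂ) * AX.e φ ∧ p 3 = (‖p 3‖ : ℂ) * AX.e (φ + t1) ∧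
    p 2 = (‖p 2‖ : ℂ) * AX.e (φ + t1 + t2) ∧ p 4 = (‖p 4‖ : ℂ) * AX.e (φ + t1 + t2 + t3) ∧
    WPD ‖p 1‖ ‖p 2‖ ‖p 3‖ ‖p 4‖ t1 t2 t3 t4 ∧
    bp 0 - ap 0 = Real.pi - (UU ‖p 1‖ ‖p 3‖ t1 + UU ‖p 1‖ ‖p 4‖ t4) ∧
    bp 1 - ap 1 = Real.pi - (UU ‖p 3‖ ‖p 1‖ t1 + UU ‖p 3‖ ‖p 2‖ t2) ∧
    bp 2 - ap 2 = Real.pi - (UU ‖p 2‖ ‖p 3‖ t2 + UU ‖p 2‖ ‖p 4‖ t3) ∧
    bp 3 - ap 3 = Real.pi - (UU ‖p 4‖ ‖p 2‖ t3 + UU ‖p 4‖ ‖p 1‖ t4)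

/-- stresses in local frames -/
def ST_WWR : Prop := ∀ (p q : Fin 5 → ℂ) (W : Fin 5 → Fin 5 → ℝ) (χ : Fin 5 → ℝ)
  (ra rx ry rb Ra Rx Ry Rb φ b1 b2 b3 ψ t1 t2 t3 t4 : ℝ),
  q 0 = 0 → q 1 = (ra : ℂ) * AX.e φ → q 2 = (rx : ℂ) * AX.e (φ + b1) →
  q 3 = (ry : ℂ) * AX.e (φ + b1 + b2) → q 4 = (rb : ℂ) * AX.e (φ + b1 + b2 + b3) →
  p 0 = 0 → p 1 = (Ra : ℂ) * AX.e ψ → p 3 = (Ry : ℂ) * AX.e (ψ + t1) →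
  p 2 = (Rx : ℂ) * AX.e (ψ + t1 + t2) → p 4 = (Rb : ℂ) * AX.e (ψ + t1 + t2 + t3) →
  WQD ra rx ry rb b1 b2 b3 → WPD Ra Rx Ry Rb t1 t2 t3 t4 →
  (∀ i j, 0 ≤ W i j) → (∀ i j, W i j = W j i) → (∀ i, W i i = 0) →
  (∀ i j, W i j ≠ 0 → dist (q i) (q j) = dist (p i) (p j)) → W 1 2 = 0 → W 3 4 = 0 →
  (∀ i, 0 ≤ χ i ∧ χ i ≤ 1) →
  (χ 1 ≠ 0 → UU Ra Ry t1 + UU Ra Rb t4 = Real.pi) →
  (χ 2 ≠ 0 → UU Rx Ry t2 + UU Rx Rb t3 = Real.pi) →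
  (χ 3 ≠ 0 → UU Ry Ra t1 + UU Ry Rx t2 = Real.pi) →
  (χ 4 ≠ 0 → UU Rb Rx t3 + UU Rb Ra t4 = Real.pi) →
  (∀ i, ∑ j, (W i j : ℂ) * (q i - q j) = ∑ j, (KQ q i j : ℂ) * (q i - q j)) →
  (∀ i, ∑ j, (W i j : ℂ) * (p i - p j) = ∑ j, (KC p χ i j : ℂ) * (p i - p j)) →
  WW ra rx ry rb Ra Rx Ry Rb b1 b2 b3 t1 t2 t3 t4 (W 1 0) (W 2 0) (W 3 0) (W 4 0)
    (W 1 3) (W 3 2) (W 2 4) (W 1 4) (χ 1) (χ 2) (χ 3) (χ 4)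

/-- the perimeters in terms of half arcs -/
def ST_POS : Prop := ∀ (p q : Fin 5 → ℂ) (ap bp aq bq : ℤ → ℝ), MaxPair p q →
  HD p 4 gC ap bp → HD q 5 gQ aq bq →
  AX.dl 1 (p 1) (p 3) + AX.dl 1 (p 3) (p 2) + AX.dl 1 (p 2) (p 4) + AX.dl 1 (p 1) (p 4) <
    AX.dl 1 (q 0) (q 1) + AX.dl 1 (q 0) (q 4) + AX.dl 1 (q 1) (q 2) + AX.dl 1 (q 2) (q 3) +
      AX.dl 1 (q 3) (q 4)

/-- distances and half arcs in polar coordinates -/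
def ST_PDL : Prop := ∀ r s φ θ : ℝ,
  dist ((r : ℂ) * AX.e φ) ((s : ℂ) * AX.e (φ + θ)) = ch r s θ ∧
  AX.dl 1 ((r : ℂ) * AX.e φ) ((s : ℂ) * AX.e (φ + θ)) = hd r s θ ∧
  (0 ≤ r → dist 0 ((r : ℂ) * AX.e φ) = r ∧ AX.dl 1 0 ((r : ℂ) * AX.e φ) = h0 r) ∧
  ch r s (-θ) = ch r s θ ∧ ch r s (θ + 2 * Real.pi) = ch r s θ

/-- two folds (all spokes tight, one rim edge slack) -/
def ST_FOLDP : Prop := ∀ (p q : Fin 5 → ℂ) (ap bp aq bq : ℤ → ℝ)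
  (ra rx ry rb φ b1 b2 b3 ψ t1 t2 t3 t4 : ℝ), MaxPair p q →
  HD p 4 gC ap bp → HD q 5 gQ aq bq → (∀ k, aq k < bq k) →
  q 0 = 0 → q 1 = (ra : ℂ) * AX.e φ → q 2 = (rx : ℂ) * AX.e (φ + b1) →
  q 3 = (ry : ℂ) * AX.e (φ + b1 + b2) → q 4 = (rb : ℂ) * AX.e (φ + b1 + b2 + b3) →
  p 0 = 0 → p 1 = (ra : ℂ) * AX.e ψ → p 3 = (ry : ℂ) * AX.e (ψ + t1) →
  p 2 = (rx : ℂ) * AX.e (ψ + t1 + t2) → p 4 = (rb : ℂ) * AX.e (ψ + t1 + t2 + t3) →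
  WQD ra rx ry rb b1 b2 b3 → WPD ra rx ry rb t1 t2 t3 t4 → t4 = b1 + b2 + b3 →
  (t1 = b1 + b2 → t3 = b2 + b3 → Real.pi < (b1 + b2) + (b1 + b2 + b3) ∧
      Real.pi < (b2 + b3) + (b1 + b2 + b3)) ∧
  (t1 = b1 + b2 → t2 = b2 → Real.pi < (b1 + b2) + (b1 + b2 + b3)) ∧
  (t3 = b2 + b3 → t2 = b2 → Real.pi < (b2 + b3) + (b1 + b2 + b3))

/-- an end kink with a slack spoke -/
def ST_GEND : Prop := ST_THREE → ∀ (p q : Fin 5 → ℂ) (ap bp aq bq : ℤ → ℝ)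
  (ra rx ry rb Ra Rx Ry Rb φ b1 b2 b3 ψ t1 t2 t3 t4 : ℝ), MaxPair p q →
  HD p 4 gC ap bp → HD q 5 gQ aq bq → (∀ k, aq k < bq k) →
  q 0 = 0 → q 1 = (ra : ℂ) * AX.e φ → q 2 = (rx : ℂ) * AX.e (φ + b1) →
  q 3 = (ry : ℂ) * AX.e (φ + b1 + b2) → q 4 = (rb : ℂ) * AX.e (φ + b1 + b2 + b3) →
  p 0 = 0 → p 1 = (Ra : ℂ) * AX.e ψ → p 3 = (Ry : ℂ) * AX.e (ψ + t1) →
  p 2 = (Rx : ℂ) * AX.e (ψ + t1 + t2) → p 4 = (Rb : ℂ) * AX.e (ψ + t1 + t2 + t3) →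
  WQD ra rx ry rb b1 b2 b3 → WPD Ra Rx Ry Rb t1 t2 t3 t4 →
  (ra < Ra → Rb = rb → Ry = ry → Rx = rx → ch ra ry (b1 + b2) = ch Ra Ry t1 →
    ch ra rb (b1 + b2 + b3) = ch Ra Rb t4 → UU Ra Ry t1 + UU Ra Rb t4 = Real.pi →
    t1 + t4 < (b1 + b2) + (b1 + b2 + b3)) ∧
  (rb < Rb → Ra = ra → Rx = rx → Ry = ry → ch rx rb (b2 + b3) = ch Rx Rb t3 →
    ch ra rb (b1 + b2 + b3) = ch Ra Rb t4 → UU Rb Rx t3 + UU Rb Ra t4 = Real.pi →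
    t3 + t4 < (b2 + b3) + (b1 + b2 + b3))

/-- all of type C as a statement on real numbers -/
def ST_WCF : Prop := ∀ ra rx ry rb Ra Rx Ry Rb b1 b2 b3 t1 t2 t3 t4
  w0a w0x w0y w0b way wyx wxb wab χa χx χy χb : ℝ,
  WD ra rx ry rb Ra Rx Ry Rb b1 b2 b3 t1 t2 t3 t4 →
  WW ra rx ry rb Ra Rx Ry Rb b1 b2 b3 t1 t2 t3 t4
    w0a w0x w0y w0b way wyx wxb wab χa χx χy χb → False

/-- mirror image (`a <-> b`, `x <-> y`) -/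
def ST_MIR : Prop := ∀ ra rx ry rb Ra Rx Ry Rb b1 b2 b3 t1 t2 t3 t4 : ℝ,
  WD ra rx ry rb Ra Rx Ry Rb b1 b2 b3 t1 t2 t3 t4 →
  WD rb ry rx ra Rb Ry Rx Ra b3 b2 b1 t3 t2 t1 t4

def ST_MIRW : Prop := ∀ ra rx ry rb Ra Rx Ry Rb b1 b2 b3 t1 t2 t3 t4
  w0a w0x w0y w0b way wyx wxb wab χa χx χy χb : ℝ,
  t1 + t2 + t3 + t4 = 2 * Real.pi →
  WW ra rx ry rb Ra Rx Ry Rb b1 b2 b3 t1 t2 t3 t4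
    w0a w0x w0y w0b way wyx wxb wab χa χx χy χb →
  WW rb ry rx ra Rb Ry Rx Ra b3 b2 b1 t3 t2 t1 t4
    w0b w0y w0x w0a wxb wyx way wab χb χy χx χa

/-- reduction of type C to real numbers -/
def ST_NOCR : Prop := Alex 4 → Alex 3 → ST_THREE → ST_WCF → ST_NOC

end E5
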