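import Pool.Agent.Helper71.E5.Stmts

/-! Cyclic bookkeeping for hull data. -/

set_option autoImplicit false

open scoped MeasureTheory ENNReal
open Complex

noncomputable section

namespace E5

/-- multiples of the period -/
theorem per_mul {n : ℕ} {α : Type} {f : ℤ → α} (hf : ∀ k, f (k + n) = f k) (k z : ℤ) :
    f (k + n * z) = f k := by
  induction z using Int.induction_on with
  | zero => simp
  | succ i ih =>
    have h : k + (n : ℤ) * ((i : ℤ) + 1) = (k + n * i) + n := by ring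
    rw [h, hf, ih]
  | pred i ih =>
    have h : k + (n : ℤ) * (-(i : ℤ)) = (k + n * (-(i : ℤ) - 1)) + n := by ring
    rw [h, hf] at ih
    exact ih

theorem per_of_eq {n M : ℕ} {α : Type} {g : ℤ → Fin n} (hi : ∀ k l, g k = g l → (M : ℤ) ∣ l - k)
    {f : ℤ → α} (hf : ∀ k, f (k + M) = f k) {k l : ℤ} (h : g k = g l) : f k = f l := by
  obtain ⟨z, hz⟩ := hi k l h
  have : l = k + M * z := by linarith
  rw [this, per_mul hf]

/-- the set of touching indices -/
def rng {n : ℕ} (g : ℤ → Fin n) : Finset (Fin n) := by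
  classical
  exact Finset.univ.filter (fun i => ∃ k, g k = i)

theorem mem_rng {n : ℕ} {g : ℤ → Fin n} {i : Fin n} : i ∈ rng g ↔ ∃ k, g k = i := by
  classical
  unfold rng
  simp

theorem exists_nat {n M : ℕ} {g : ℤ → Fin n} (hM : 0 < M) (hg : ∀ k, g (k + M) = g k) (k : ℤ) :
    ∃ r : ℕ, r < M ∧ g r = g k := by
  refine ⟨(k % M).toNat, ?_, ?_⟩
  · have h1 : 0 ≤ k % (M : ℤ) := Int.emod_nonneg _ (by omega)
    have h2 : k % (M : ℤ) < M := Int.emod_lt_of_pos _ (by omega)
    omega
  · have h1 : 0 ≤ k % (M : ℤ) := Int.emod_nonneg _ (by omega)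
    rw [Int.toNat_of_nonneg h1]
    have h3 : k = k % M + M * (k / M) := (Int.emod_add_mul_ediv k M).symm
    conv_rhs => rw [h3]
    rw [per_mul hg]

theorem sum_rng {n M : ℕ} {g : ℤ → Fin n} (hM : 0 < M) (hg : ∀ k, g (k + M) = g k)
    (hi : ∀ k l, g k = g l → (M : ℤ) ∣ l - k) (F : Fin n → ℝ) :
    ∑ k ∈ Finset.range M, F (g (k : ℤ)) = ∑ i ∈ rng g, F i := by
  classical
  apply Finset.sum_bij (fun (k : ℕ) _ => g (k : ℤ))
  · intro k _
    exact mem_rng.2 ⟨k, rfl⟩
  · intro k hk l hl h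
    obtain ⟨z, hz⟩ := hi k l h
    have h1 : k < M := Finset.mem_range.1 hk
    have h2 : l < M := Finset.mem_range.1 hl
    have hM' : (0 : ℤ) < M := by omega
    have hk1 : (k : ℤ) < M := by omega
    have hl1 : (l : ℤ) < M := by omega
    have hk0 : (0 : ℤ) ≤ k := by omega
    have hl0 : (0 : ℤ) ≤ l := by omega
    have hz1 : z < 1 := by nlinarith
    have hz2 : -1 < z := by nlinarith
    have hz0 : z = 0 := by omega
    rw [hz0] at hz
    omega
  · intro i hi'
    obtain ⟨k, hk⟩ := mem_rng.1 hi'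
    obtain ⟨r, hr, hr2⟩ := exists_nat hM hg k
    exact ⟨r, Finset.mem_range.2 hr, by rw [hr2, hk]⟩
  · intro k _
    rfl

/-- a full family: every index occurs -/
theorem surj_full {n : ℕ} {g : ℤ → Fin n} (_hn : 0 < n) (_hg : ∀ k, g (k + n) = g k)
    (hi : ∀ k l, g k = g l → (n : ℤ) ∣ l - k) (i : Fin n) : ∃ k, g k = i := by
  classical
  have h1 : Function.Injective (fun k : Fin n => g (k.val : ℤ)) := by
    intro k l h
    obtain ⟨z, hz⟩ := hi _ _ h
    have h1 := k.isLt
    have h2 := l.isLt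
    have hz1 : z < 1 := by nlinarith
    have hz2 : -1 < z := by nlinarith
    have hz0 : z = 0 := by omega
    rw [hz0] at hz
    apply Fin.ext
    omega
  obtain ⟨k, hk⟩ := (Finite.injective_iff_surjective.1 h1) i
  exact ⟨_, hk⟩

theorem rng_full {n : ℕ} {g : ℤ → Fin n} (hn : 0 < n) (hg : ∀ k, g (k + n) = g k)
    (hi : ∀ k l, g k = g l → (n : ℤ) ∣ l - k) : rng g = Finset.univ := by
  ext i
  simp only [Finset.mem_univ, iff_true]
  exact mem_rng.2 (surj_full hn hg hi i)

/-- position of an index in a full family -/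
def pos {n : ℕ} (g : ℤ → Fin n) (i : Fin n) : ℤ := by
  classical
  exact if h : ∃ k, g k = i then h.choose else 0

theorem pos_spec {n : ℕ} {g : ℤ → Fin n} {i : Fin n} (h : ∃ k, g k = i) : g (pos g i) = i := by
  classical
  unfold pos
  rw [dif_pos h]
  exact h.choose_spec

theorem pos_per {n M : ℕ} {α : Type} {g : ℤ → Fin n} (hi : ∀ k l, g k = g l → (M : ℤ) ∣ l - k)
    {f : ℤ → α} (hf : ∀ k, f (k + M) = f k) (k : ℤ) : f (pos g (g k)) = f k :=
  per_of_eq hi hf (pos_spec ⟨k, rfl⟩)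

/-- successor in a full family -/
def nxt {n : ℕ} (g : ℤ → Fin n) (hn : 0 < n) (hg : ∀ k, g (k + n) = g k)
    (hi : ∀ k l, g k = g l → (n : ℤ) ∣ l - k) : Equiv.Perm (Fin n) where
  toFun i := g (pos g i + 1)
  invFun i := g (pos g i - 1)
  left_inv := by
    intro i
    have h := pos_per hi (f := fun k => g (k - 1))
      (fun k => by
        have : k + (n : ℤ) - 1 = (k - 1) + n := by ring
        simp only [this, hg]) (pos g i + 1)
    simp only [add_sub_cancel_right] at h
    show g (pos g (g (pos g i + 1)) - 1) = i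
    rw [h]
    exact pos_spec (surj_full hn hg hi i)
  right_inv := by
    intro i
    have h := pos_per hi (f := fun k => g (k + 1))
      (fun k => by
        have : k + (n : ℤ) + 1 = (k + 1) + n := by ring
        simp only [this, hg]) (pos g i - 1)
    simp only [sub_add_cancel] at h
    show g (pos g (g (pos g i - 1)) + 1) = i
    rw [h]
    exact pos_spec (surj_full hn hg hi i)

theorem nxt_apply {n : ℕ} {g : ℤ → Fin n} (hn : 0 < n) (hg : ∀ k, g (k + n) = g k)
    (hi : ∀ k l, g k = g l → (n : ℤ) ∣ l - k) (k : ℤ) : nxt g hn hg hi (g k) = g (k + 1) :=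
  pos_per hi (f := fun k => g (k + 1))
      (fun k => by
        have : k + (n : ℤ) + 1 = (k + 1) + n := by ring
        simp only [this, hg]) k

theorem nxt_symm {n : ℕ} {g : ℤ → Fin n} (hn : 0 < n) (hg : ∀ k, g (k + n) = g k)
    (hi : ∀ k l, g k = g l → (n : ℤ) ∣ l - k) (k : ℤ) :
    (nxt g hn hg hi).symm (g k) = g (k - 1) :=
  pos_per hi (f := fun k => g (k - 1))
      (fun k => by
        have : k + (n : ℤ) - 1 = (k - 1) + n := by ring
        simp only [this, hg]) k

/-- neighbours in the same order -/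
theorem same_succ {n M N : ℕ} {gp gq : ℤ → Fin n} {φ : ℤ → ℤ} (hφ : StrictMono φ)
    (hφM : ∀ k, φ (k + M) = φ k + N) (hg : ∀ k, gq (φ k) = gp k)
    (hi : ∀ k l, gq k = gq l → (N : ℤ) ∣ l - k) (k : ℤ) (h : ∃ l, gp l = gq (φ k + 1)) :
    gq (φ k + 1) = gp (k + 1) := by
  obtain ⟨l, hl⟩ := h
  rw [← hg l] at hl
  obtain ⟨z, hz⟩ := hi _ _ hl
  have hφz : ∀ k z : ℤ, φ (k + M * z) = φ k + N * z := by
    intro k z
    induction z using Int.induction_on with
    | zero => simp
    | succ i ih =>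
      have h : k + (M : ℤ) * ((i : ℤ) + 1) = (k + M * i) + M := by ring
      rw [h, hφM, ih]; ring
    | pred i ih =>
      have h : k + (M : ℤ) * (-(i : ℤ)) = (k + M * (-(i : ℤ) - 1)) + M := by ring
      rw [h, hφM] at ih
      linarith
  have h1 : φ (l + M * z) = φ k + 1 := by rw [hφz]; linarith
  have h2 : k < l + M * z := by
    rw [← hφ.lt_iff_lt, h1]; omega
  have h3 : φ (k + 1) ≤ φ k + 1 := by
    rw [← h1]
    exact hφ.monotone (by omega)
  have h4 : φ k < φ (k + 1) := hφ (by omega)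
  have h5 : φ (k + 1) = φ k + 1 := by omega
  rw [← h5, hg]

theorem same_pred {n M N : ℕ} {gp gq : ℤ → Fin n} {φ : ℤ → ℤ} (hφ : StrictMono φ)
    (hφM : ∀ k, φ (k + M) = φ k + N) (hg : ∀ k, gq (φ k) = gp k)
    (hi : ∀ k l, gq k = gq l → (N : ℤ) ∣ l - k) (k : ℤ) (h : ∃ l, gp l = gq (φ k - 1)) :
    gq (φ k - 1) = gp (k - 1) := by
  obtain ⟨l, hl⟩ := h
  rw [← hg l] at hl
  obtain ⟨z, hz⟩ := hi _ _ hl
  have hφz : ∀ k z : ℤ, φ (k + M * z) = φ k + N * z := by
    intro k z
    induction z using Int.induction_on with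
    | zero => simp
    | succ i ih =>
      have h : k + (M : ℤ) * ((i : ℤ) + 1) = (k + M * i) + M := by ring
      rw [h, hφM, ih]; ring
    | pred i ih =>
      have h : k + (M : ℤ) * (-(i : ℤ)) = (k + M * (-(i : ℤ) - 1)) + M := by ring
      rw [h, hφM] at ih
      linarith
  have h1 : φ (l + M * z) = φ k - 1 := by rw [hφz]; linarith
  have h2 : l + M * z < k := by
    rw [← hφ.lt_iff_lt, h1]; omega
  have h3 : φ k - 1 ≤ φ (k - 1) := by
    rw [← h1]
    exact hφ.monotone (by omega)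
  have h4 : φ (k - 1) < φ k := hφ (by omega)
  have h5 : φ (k - 1) = φ k - 1 := by omega
  rw [← h5, hg]

end E5
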