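import Pool.Agent.Helper71.E5.WStmts2

/-!
MP_efd95c_co, wheels: module statements, part 3 (type C as statements on real numbers).
Table efd5wrows.
-/

set_option autoImplicit false
set_option linter.unusedVariables false

open scoped MeasureTheory ENNReal Topology
open Complex

noncomputable section

namespace E5

/-- effective torques of the four rim edges of `p` -/
def say (Ra Rx Ry Rb t1 t2 t4 χa χx χy χb : ℝ) : ℝ :=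
  (1 - χa) * (1 - χy) * tq Ra Ry t1 + χy * tq Ra Rx (t1 + t2) + χa * tq Ry Rb (t1 + t4)

def syx (Ra Rx Ry Rb t1 t2 t3 χa χx χy χb : ℝ) : ℝ :=
  (1 - χy) * (1 - χx) * tq Ry Rx t2 + χy * tq Ra Rx (t1 + t2) + χx * tq Ry Rb (t2 + t3)

def sxb (Ra Rx Ry Rb t2 t3 t4 χa χx χy χb : ℝ) : ℝ :=
  (1 - χx) * (1 - χb) * tq Rx Rb t3 + χx * tq Ry Rb (t2 + t3) + χb * tq Rx Ra (t3 + t4)

def sab (Ra Rx Ry Rb t1 t3 t4 χa χx χy χb : ℝ) : ℝ :=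
  (1 - χa) * (1 - χb) * tq Ra Rb t4 + χa * tq Ry Rb (t1 + t4) + χb * tq Rx Ra (t3 + t4)

/-- torque equations -/
def ST_TOR : Prop := ∀ ra rx ry rb Ra Rx Ry Rb b1 b2 b3 t1 t2 t3 t4
  w0a w0x w0y w0b way wyx wxb wab χa χx χy χb : ℝ,
  WD ra rx ry rb Ra Rx Ry Rb b1 b2 b3 t1 t2 t3 t4 →
  WW ra rx ry rb Ra Rx Ry Rb b1 b2 b3 t1 t2 t3 t4
    w0a w0x w0y w0b way wyx wxb wab χa χx χy χb →
  (∃ lam : ℝ,
    say Ra Rx Ry Rb t1 t2 t4 χa χx χy χb - way * Ra * Ry * Real.sin t1 = lam ∧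
    syx Ra Rx Ry Rb t1 t2 t3 χa χx χy χb - wyx * Rx * Ry * Real.sin t2 = lam ∧
    sxb Ra Rx Ry Rb t2 t3 t4 χa χx χy χb - wxb * Rx * Rb * Real.sin t3 = lam ∧
    sab Ra Rx Ry Rb t1 t3 t4 χa χx χy χb - wab * Ra * Rb * Real.sin t4 = lam) ∧
  tq ra rx b1 = way * ra * ry * Real.sin (b1 + b2) + wab * ra * rb * Real.sin (b1 + b2 + b3) ∧
  tq ry rb b3 = wxb * rx * rb * Real.sin (b2 + b3) + wab * ra * rb * Real.sin (b1 + b2 + b3) ∧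
  tq rx ry b2 - tq ra rx b1 =
    wyx * rx * ry * Real.sin b2 + wxb * rx * rb * Real.sin (b2 + b3) ∧
  tq rx ry b2 - tq ry rb b3 =
    wyx * rx * ry * Real.sin b2 + way * ra * ry * Real.sin (b1 + b2)

/-- the spoke of the end kink `a` carries no stress -/
structure SPE (Ra Ry Rb t1 t4 w0a w0x w0y w0b way wab χa χx χy χb : ℝ) : Prop where
  w0 : w0a = 0
  wx : 0 < w0x
  wy : 0 < w0y
  wb : 0 < w0b
  c0 : 0 < χa
  c1 : χa < 1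
  cy : χy = 0
  cb : χb = 0
  ay : way = (1 - χa) * omc Ra Ry t1
  ab : wab = (1 - χa) * omc Ra Rb t4
  k : UU Ra Ry t1 + UU Ra Rb t4 = Real.pi
  t : t1 + t4 < Real.pi

/-- the spokes -/
def ST_SPKR : Prop := ∀ ra rx ry rb Ra Rx Ry Rb b1 b2 b3 t1 t2 t3 t4
  w0a w0x w0y w0b way wyx wxb wab χa χx χy χb : ℝ,
  WD ra rx ry rb Ra Rx Ry Rb b1 b2 b3 t1 t2 t3 t4 →
  WW ra rx ry rb Ra Rx Ry Rb b1 b2 b3 t1 t2 t3 t4
    w0a w0x w0y w0b way wyx wxb wab χa χx χy χb →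
  (0 < w0a ∧ 0 < w0x ∧ 0 < w0y ∧ 0 < w0b) ∨
  SPE Ra Ry Rb t1 t4 w0a w0x w0y w0b way wab χa χx χy χb ∨
  SPE Rb Rx Ra t3 t4 w0b w0y w0x w0a wxb wab χb χy χx χa

/-- `ay, yx, xb` tight, all spokes tight (Theorem P) -/
def ST_K0 : Prop := ∀ ra rx ry rb b1 b2 b3 t4 : ℝ,
  WD ra rx ry rb ra rx ry rb b1 b2 b3 (b1 + b2) b2 (b2 + b3) t4 → False

/-- end kink `a` with slack spoke, all rim edges tight -/
def ST_KE0 : Prop := ∀ ra rx ry rb Ra b1 b2 b3 t1 t2 t3 t4 : ℝ,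
  WD ra rx ry rb Ra rx ry rb b1 b2 b3 t1 t2 t3 t4 → ra < Ra →
  ch ra ry (b1 + b2) = ch Ra ry t1 → ch ry rx b2 = ch ry rx t2 →
  ch rx rb (b2 + b3) = ch rx rb t3 → ch ra rb (b1 + b2 + b3) = ch Ra rb t4 →
  UU Ra ry t1 + UU Ra rb t4 = Real.pi → False

/-- end kink `a` with unstressed slack spoke, `yx` slack -/
def ST_KYE : Prop := ∀ ra rx ry rb Ra b1 b2 b3 t1 t2 t3 t4
  w0a w0x w0y w0b way wyx wxb wab χa χx χy χb : ℝ,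
  WD ra rx ry rb Ra rx ry rb b1 b2 b3 t1 t2 t3 t4 →
  WW ra rx ry rb Ra rx ry rb b1 b2 b3 t1 t2 t3 t4
    w0a w0x w0y w0b way wyx wxb wab χa χx χy χb →
  SPE Ra ry rb t1 t4 w0a w0x w0y w0b way wab χa χx χy χb → ra < Ra →
  ch ra ry (b1 + b2) = ch Ra ry t1 → ch ry rx b2 < ch ry rx t2 →
  ch rx rb (b2 + b3) = ch rx rb t3 → ch ra rb (b1 + b2 + b3) = ch Ra rb t4 → False

/-- end kink `a` with unstressed slack spoke, `xb` slack -/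
def ST_KXE : Prop := ∀ ra rx ry rb Ra b1 b2 b3 t1 t2 t3 t4
  w0a w0x w0y w0b way wyx wxb wab χa χx χy χb : ℝ,
  WD ra rx ry rb Ra rx ry rb b1 b2 b3 t1 t2 t3 t4 →
  WW ra rx ry rb Ra rx ry rb b1 b2 b3 t1 t2 t3 t4
    w0a w0x w0y w0b way wyx wxb wab χa χx χy χb →
  SPE Ra ry rb t1 t4 w0a w0x w0y w0b way wab χa χx χy χb → ra < Ra →
  ch ra ry (b1 + b2) = ch Ra ry t1 → ch ry rx b2 = ch ry rx t2 →
  ch rx rb (b2 + b3) < ch rx rb t3 → ch ra rb (b1 + b2 + b3) = ch Ra rb t4 → False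

/-- `xb` slack, everything else tight -/
def ST_KXB : Prop := ∀ ra rx ry rb b1 b2 b3 t3
  w0a w0x w0y w0b way wyx wab χa χx χy χb : ℝ,
  WD ra rx ry rb ra rx ry rb b1 b2 b3 (b1 + b2) b2 t3 (b1 + b2 + b3) →
  WW ra rx ry rb ra rx ry rb b1 b2 b3 (b1 + b2) b2 t3 (b1 + b2 + b3)
    w0a w0x w0y w0b way wyx 0 wab χa χx χy χb → b2 + b3 < t3 → False

/-- `yx` slack, everything else tight -/
def ST_KYX : Prop := ∀ ra rx ry rb b1 b2 b3 t2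
  w0a w0x w0y w0b way wxb wab χa χx χy χb : ℝ,
  WD ra rx ry rb ra rx ry rb b1 b2 b3 (b1 + b2) t2 (b2 + b3) (b1 + b2 + b3) →
  WW ra rx ry rb ra rx ry rb b1 b2 b3 (b1 + b2) t2 (b2 + b3) (b1 + b2 + b3)
    w0a w0x w0y w0b way 0 wxb wab χa χx χy χb → b2 < t2 → False

/-- at most one rim edge is slack -/
def ST_TWO : Prop := ∀ ra rx ry rb Ra Rx Ry Rb b1 b2 b3 t1 t2 t3 t4
  w0a w0x w0y w0b way wyx wxb wab χa χx χy χb : ℝ,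
  WD ra rx ry rb Ra Rx Ry Rb b1 b2 b3 t1 t2 t3 t4 →
  WW ra rx ry rb Ra Rx Ry Rb b1 b2 b3 t1 t2 t3 t4
    w0a w0x w0y w0b way wyx wxb wab χa χx χy χb →
  (ch ra ry (b1 + b2) = ch Ra Ry t1 ∨ ch ry rx b2 = ch Ry Rx t2) ∧
  (ch ra ry (b1 + b2) = ch Ra Ry t1 ∨ ch rx rb (b2 + b3) = ch Rx Rb t3) ∧
  (ch ra ry (b1 + b2) = ch Ra Ry t1 ∨ ch ra rb (b1 + b2 + b3) = ch Ra Rb t4) ∧
  (ch ry rx b2 = ch Ry Rx t2 ∨ ch rx rb (b2 + b3) = ch Rx Rb t3) ∧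
  (ch ry rx b2 = ch Ry Rx t2 ∨ ch ra rb (b1 + b2 + b3) = ch Ra Rb t4) ∧
  (ch rx rb (b2 + b3) = ch Rx Rb t3 ∨ ch ra rb (b1 + b2 + b3) = ch Ra Rb t4)

/-- assembly of type C -/
def ST_WCFA : Prop := ST_MIR → ST_MIRW → ST_SPKR → ST_TWO → ST_K0 → ST_KE0 → ST_KYE → ST_KXE →
  ST_KXB → ST_KYX → ST_WCF

end E5
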