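import Pool.Agent.Helper71.E5.SAME

/-! Assembly: at most three touching circles, and the theorem for at most five disks. -/

set_option autoImplicit false

open scoped MeasureTheory ENNReal
open Complex

noncomputable section

namespace E5

/-- reflection of the second family -/
theorem MaxPair.conj (hPISO : ST_PISO) {n : ℕ} {p q : Fin n → ℂ} (h : MaxPair p q) :
    MaxPair p (fun i => (starRingEnd ℂ) (q i)) := by
  have h1 : per (fun i => (starRingEnd ℂ) (q i)) = per q :=
    hPISO n q (Complex.conjLIE.toIsometryEquiv)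
  refine ⟨fun i j => ?_, by rw [h1]; exact h.pos, fun p' q' h' => ?_⟩
  · rw [Complex.dist_conj_conj]
    exact h.ctr i j
  · rw [h1]
    exact h.max p' q' h'

theorem same_ref (hSAME : ST_SAME) (hPISO : ST_PISO) (hREF : ST_HDREF) {n : ℕ}
    {p q : Fin n → ℂ} {M : ℕ} {gp : ℤ → Fin n} {ap bp : ℤ → ℝ} {gq : ℤ → Fin n}
    {aq bq : ℤ → ℝ} (hmax : MaxPair p q) (hp : HD p M gp ap bp) (hq : HD q n gq aq bq)
    (hfull : ∀ k, aq k < bq k) (h : SameOrd gp M (fun k => gq (-k)) n) : False :=
  hSAME n p (fun i => (starRingEnd ℂ) (q i)) M gp ap bp (fun k => gq (-k)) (fun k => -(bq (-k)))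
    (fun k => -(aq (-k))) (hmax.conj hPISO) hp (hREF n q n gq aq bq hq)
    (fun k => by have := hfull (-k); linarith) h

theorem THREE_aux (hORD3 : ST_ORD3) (hSAME : ST_SAME) (hFLAT : ST_FLAT) (hCOLL : ST_COLL)
    (hREF : ST_HDREF) (hPISO : ST_PISO) : ST_THREE := by
  intro n p q M gp ap bp gq aq bq hmax hp hq hfull hM
  have h2 := hp.two
  rcases (by omega : M = 2 ∨ M = 3) with h | h
  · subst h
    have hf := hFLAT n p q 2 gp ap bp gq aq bq hmax hp hq hfull
    have hn := hq.two
    obtain ⟨m, rfl⟩ : ∃ m, n = m + 2 := ⟨n - 2, by omega⟩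
    have hper : ∀ k, gp (k + 2) = gp k := fun k => by
      have := hp.gper k
      simpa using this
    have hrange : Set.range (fun k => p (gp k)) = {p (gp 0), p (gp 1)} := by
      ext x
      constructor
      · rintro ⟨k, rfl⟩
        obtain ⟨r, hr, hr2⟩ := exists_nat (M := 2) (by norm_num) hp.gper k
        rcases (by omega : r = 0 ∨ r = 1) with h | h
        · left
          show p (gp k) = p (gp 0)
          rw [← hr2, h]; rfl
        · right
          show p (gp k) = p (gp 1)
          rw [← hr2, h]; rfl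
      · rintro (h | h)
        · exact ⟨0, h.symm⟩
        · exact ⟨1, h.symm⟩
    have hle := hCOLL m p q hmax.ctr hq.inj (fun i => by
      obtain ⟨k, hk⟩ := surj_full (by omega) hq.gper hq.ginj i
      rw [← hk]
      exact ⟨aq k, (hq.mem k (aq k) le_rfl (by linarith [Real.pi_pos])).2 (hq.le k)⟩)
      ⟨gp 0, gp 1, fun i => by
        have h1 := hf i
        rw [hrange, convexHull_pair] at h1
        exact h1⟩
    have := hmax.pos
    linarith
  · subst h
    rcases hORD3 n gp gq (fun k => by have := hp.gper k; simpa using this)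
      (fun k l hkl => by have := hp.ginj k l hkl; simpa using this) hq.gper hq.ginj with h | h
    · exact hSAME n p q 3 gp ap bp gq aq bq hmax hp hq hfull h
    · exact same_ref hSAME hPISO hREF hmax hp hq hfull h

theorem le_card {n M : ℕ} {g : ℤ → Fin n} (hi : ∀ k l, g k = g l → (M : ℤ) ∣ l - k) : M ≤ n := by
  classical
  have h1 : Function.Injective (fun k : Fin M => g (k.val : ℤ)) := by
    intro k l h
    obtain ⟨z, hz⟩ := hi _ _ h
    have h1 := k.isLt
    have h2 := l.isLt
    have hz1 : z < 1 := by nlinarith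
    have hz2 : -1 < z := by nlinarith
    have hz0 : z = 0 := by omega
    rw [hz0] at hz
    apply Fin.ext
    omega
  have := Fintype.card_le_of_injective _ h1
  simpa using this

theorem FIVE_aux (hSMALL : ST_SMALL) (hEX : ST_EX) (hFULL : ST_FULL) (hINT : ST_INT)
    (hHD : ST_HD) (hHDFULL : ST_HDFULL) (hTOUCH : ST_TOUCH) (hTHREE : ST_THREE)
    (hSAME : ST_SAME) (hPISO : ST_PISO) (hREF : ST_HDREF) (hWHEEL : ST_WHEEL) : ST_FIVE := by
  intro n
  induction n with
  | zero => intro _; exact hSMALL.1
  | succ n ih =>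
    intro hn5
    rcases n with _ | m
    · exact hSMALL.2
    · have hA : Alex (m + 1) := ih (by omega)
      by_contra hno
      obtain ⟨p, q, hmax⟩ := hEX (m + 2) hno
      obtain ⟨hqi, hqa⟩ := hFULL m hA p q hmax
      obtain ⟨hpint, hqint⟩ := hINT _ p q hmax
      have hpi : Function.Injective p := by
        intro i j hij
        apply hqi
        have := hmax.ctr i j
        rw [hij, dist_self] at this
        exact dist_le_zero.1 this
      obtain ⟨M, gp, ap, bp, hp⟩ := hHD _ p (by omega) hpi hpint
      obtain ⟨M', gq, aq, bq, hq⟩ := hHD _ q (by omega) hqi hqint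
      obtain ⟨hM', hfull⟩ := hHDFULL _ q M' gq aq bq hq hqa
      rw [hM'] at hq
      have hMn : M ≤ m + 2 := le_card hp.ginj
      rcases (by omega : M ≤ 3 ∨ M = m + 2 ∨ (M = 4 ∧ m = 3)) with h | h | ⟨h, h'⟩
      · exact hTHREE _ p q M gp ap bp gq aq bq hmax hp hq hfull h
      · rw [h] at hp
        have := hTOUCH _ p q hmax.ctr (fun i => by
          obtain ⟨k, hk⟩ := surj_full (by omega) hp.gper hp.ginj i
          rw [← hk]
          exact ⟨ap k, (hp.mem k (ap k) le_rfl (by linarith [Real.pi_pos])).2 (hp.le k)⟩)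
        have := hmax.pos
        linarith
      · subst h
        subst h'
        by_cases hs : SameOrd gp 4 gq 5
        · exact hSAME _ p q 4 gp ap bp gq aq bq hmax hp hq hfull hs
        · by_cases hs' : SameOrd gp 4 (fun k => gq (-k)) 5
          · exact same_ref hSAME hPISO hREF hmax hp hq hfull hs'
          · exact hWHEEL p q gp ap bp gq aq bq hmax hp hq hfull hs hs'

end E5
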