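import Pool.Agent.Helper71.E5.WStmts3

/-!
MP_efd95c_co, wheels of type C: assembly of the real statements (row WCFA).
-/

set_option autoImplicit false

open scoped MeasureTheory ENNReal Topology
open Complex

noncomputable section

namespace E5

theorem ch_sq71 (r s θ : ℝ) : ch r s θ ^ 2 = r ^ 2 + s ^ 2 - 2 * r * s * Real.cos θ := by
  unfold ch
  rw [Real.sq_sqrt]
  nlinarith [sq_nonneg (r - s * Real.cos θ), sq_nonneg (s * Real.sin θ),
    Real.sin_sq_add_cos_sq θ]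

theorem ch_inj71 {r s θ θ' : ℝ} (hr : 0 < r) (hs : 0 < s) (h0 : 0 ≤ θ) (h1 : θ ≤ Real.pi)
    (h0' : 0 ≤ θ') (h1' : θ' ≤ Real.pi) (h : ch r s θ = ch r s θ') : θ = θ' := by
  have h2 : ch r s θ ^ 2 = ch r s θ' ^ 2 := by rw [h]
  rw [ch_sq71, ch_sq71] at h2
  have h3 : 0 < 2 * r * s := by positivity
  have h4 : Real.cos θ = Real.cos θ' := by
    have : 2 * r * s * Real.cos θ = 2 * r * s * Real.cos θ' := by linarith
    exact mul_left_cancel₀ h3.ne' this
  exact Real.injOn_cos ⟨h0, h1⟩ ⟨h0', h1'⟩ h4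

theorem ch_lt71 {r s θ θ' : ℝ} (hr : 0 < r) (hs : 0 < s) (h0 : 0 ≤ θ) (h1 : θ ≤ Real.pi)
    (h0' : 0 ≤ θ') (h1' : θ' ≤ Real.pi) (h : ch r s θ < ch r s θ') : θ < θ' := by
  by_contra hc
  push Not at hc
  have h4 : Real.cos θ ≤ Real.cos θ' := Real.cos_le_cos_of_nonneg_of_le_pi h0' h1 hc
  have h5 : 0 ≤ ch r s θ := Real.sqrt_nonneg _
  have h6 : ch r s θ ^ 2 < ch r s θ' ^ 2 := by nlinarith
  rw [ch_sq71, ch_sq71] at h6
  have h3 : 0 < 2 * r * s := by positivity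
  nlinarith [mul_le_mul_of_nonneg_left h4 h3.le]

theorem omc_pos71 {r s θ : ℝ} (h : 0 < ch r s θ) (h2 : ch r s θ < 2) : 0 < omc r s θ := by
  unfold omc
  have : 0 < 4 - ch r s θ ^ 2 := by nlinarith
  positivity

theorem ch_pos71 {r s θ : ℝ} (hr : 0 < r) (hs : 0 < s) (h0 : 0 < θ) (h1 : θ < Real.pi) :
    0 < ch r s θ := by
  have h2 : 0 ≤ ch r s θ := Real.sqrt_nonneg _
  rcases h2.lt_or_eq with h | h
  · exact h
  · exfalso
    have h3 := ch_sq71 r s θ
    rw [← h] at h3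
    have h4 : Real.cos θ < 1 := by
      have := Real.cos_lt_cos_of_nonneg_of_le_pi (le_refl 0) h1.le h0
      rwa [Real.cos_zero] at this
    have h5 : 0 < 2 * r * s := by positivity
    nlinarith [mul_lt_mul_of_pos_left h4 h5, sq_nonneg (r - s)]

/-- all four spokes tight -/
theorem wcf_tight (hMIR : ST_MIR) (hMIRW : ST_MIRW) (hTWO : ST_TWO) (hK0 : ST_K0)
    (hKXB : ST_KXB) (hKYX : ST_KYX)
    (ra rx ry rb b1 b2 b3 t1 t2 t3 t4
      w0a w0x w0y w0b way wyx wxb wab χa χx χy χb : ℝ)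
    (hD : WD ra rx ry rb ra rx ry rb b1 b2 b3 t1 t2 t3 t4)
    (hW : WW ra rx ry rb ra rx ry rb b1 b2 b3 t1 t2 t3 t4
      w0a w0x w0y w0b way wyx wxb wab χa χx χy χb) : False := by
  obtain ⟨h12, h13, h14, h23, h24, h34⟩ := hTWO _ _ _ _ _ _ _ _ _ _ _ _ _ _ _
    _ _ _ _ _ _ _ _ _ _ _ _ hD hW
  have qb := hD.q
  have pb := hD.p
  have b10 := qb.b10
  have b20 := qb.b20
  have b30 := qb.b30
  have bs := qb.bs
  have e1 : ch ra ry (b1 + b2) = ch ra ry t1 → b1 + b2 = t1 := fun h =>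
    ch_inj71 qb.ra0 qb.ry0 (by linarith) (by linarith) pb.t10.le pb.t1p.le h
  have e2 : ch ry rx b2 = ch ry rx t2 → b2 = t2 := fun h =>
    ch_inj71 qb.ry0 qb.rx0 (by linarith) (by linarith) pb.t20.le pb.t2p.le h
  have e3 : ch rx rb (b2 + b3) = ch rx rb t3 → b2 + b3 = t3 := fun h =>
    ch_inj71 qb.rx0 qb.rb0 (by linarith) (by linarith) pb.t30.le pb.t3p.le h
  have e4 : ch ra rb (b1 + b2 + b3) = ch ra rb t4 → b1 + b2 + b3 = t4 := fun h =>
    ch_inj71 qb.ra0 qb.rb0 (by linarith) (by linarith) pb.t40.le pb.t4p.le h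
  by_cases c1 : ch ra ry (b1 + b2) = ch ra ry t1
  · by_cases c2 : ch ry rx b2 = ch ry rx t2
    · by_cases c3 : ch rx rb (b2 + b3) = ch rx rb t3
      · have := e1 c1
        subst this
        have := e2 c2
        subst this
        have := e3 c3
        subst this
        exact hK0 _ _ _ _ _ _ _ _ hD
      · have c4 : ch ra rb (b1 + b2 + b3) = ch ra rb t4 := by
          rcases h34 with h | h
          · exact absurd h c3
          · exact h
        have := e1 c1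
        subst this
        have := e2 c2
        subst this
        have := e4 c4
        subst this
        have hw : wxb = 0 := by
          by_contra hne
          exact c3 (hW.cxb hne)
        subst hw
        have hlt : b2 + b3 < t3 := ch_lt71 qb.rx0 qb.rb0 (by linarith) (by linarith)
          pb.t30.le pb.t3p.le (lt_of_le_of_ne hD.cxb c3)
        exact hKXB _ _ _ _ _ _ _ _ _ _ _ _ _ _ _ _ _ _ _ hD hW hlt
    · have c3 : ch rx rb (b2 + b3) = ch rx rb t3 := by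
        rcases h23 with h | h
        · exact absurd h c2
        · exact h
      have c4 : ch ra rb (b1 + b2 + b3) = ch ra rb t4 := by
        rcases h24 with h | h
        · exact absurd h c2
        · exact h
      have := e1 c1
      subst this
      have := e3 c3
      subst this
      have := e4 c4
      subst this
      have hw : wyx = 0 := by
        by_contra hne
        exact c2 (hW.cyx hne)
      subst hw
      have hlt : b2 < t2 := ch_lt71 qb.ry0 qb.rx0 (by linarith) (by linarith)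
        pb.t20.le pb.t2p.le (lt_of_le_of_ne hD.cyx c2)
      exact hKYX _ _ _ _ _ _ _ _ _ _ _ _ _ _ _ _ _ _ _ hD hW hlt
  · have c2 : ch ry rx b2 = ch ry rx t2 := by
      rcases h12 with h | h
      · exact absurd h c1
      · exact h
    have c3 : ch rx rb (b2 + b3) = ch rx rb t3 := by
      rcases h13 with h | h
      · exact absurd h c1
      · exact h
    have c4 : ch ra rb (b1 + b2 + b3) = ch ra rb t4 := by
      rcases h14 with h | h
      · exact absurd h c1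
      · exact h
    have hD' := hMIR _ _ _ _ _ _ _ _ _ _ _ _ _ _ _ hD
    have hW' := hMIRW _ _ _ _ _ _ _ _ _ _ _ _ _ _ _ _ _ _ _ _ _ _ _ _ _ _ _ pb.ts hW
    have hw : way = 0 := by
      by_contra hne
      exact c1 (hW.cay hne)
    subst hw
    have hlt : b1 + b2 < t1 := ch_lt71 qb.ra0 qb.ry0 (by linarith) (by linarith)
      pb.t10.le pb.t1p.le (lt_of_le_of_ne hD.cay c1)
    have f2 := e2 c2
    have f3 := e3 c3
    have f4 := e4 c4
    have g3 : t3 = b3 + b2 := by linarith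
    have g4 : t4 = b3 + b2 + b1 := by linarith
    subst f2
    rw [g3, g4] at hD' hW'
    exact hKXB _ _ _ _ _ _ _ _ _ _ _ _ _ _ _ _ _ _ _ hD' hW' (by linarith)

/-- the spoke of the end kink `a` carries no stress -/
theorem wcf_end (hMIR : ST_MIR) (hMIRW : ST_MIRW) (hTWO : ST_TWO) (hK0 : ST_K0)
    (hKE0 : ST_KE0) (hKYE : ST_KYE) (hKXE : ST_KXE)
    (hKXB : ST_KXB) (hKYX : ST_KYX)
    (ra rx ry rb Ra Rx Ry Rb b1 b2 b3 t1 t2 t3 t4
      w0a w0x w0y w0b way wyx wxb wab χa χx χy χb : ℝ)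
    (hD : WD ra rx ry rb Ra Rx Ry Rb b1 b2 b3 t1 t2 t3 t4)
    (hW : WW ra rx ry rb Ra Rx Ry Rb b1 b2 b3 t1 t2 t3 t4
      w0a w0x w0y w0b way wyx wxb wab χa χx χy χb)
    (hE : SPE Ra Ry Rb t1 t4 w0a w0x w0y w0b way wab χa χx χy χb) : False := by
  have hx : Rx = rx := hW.c0x hE.wx.ne'
  have hy : Ry = ry := hW.c0y hE.wy.ne'
  have hb : Rb = rb := hW.c0b hE.wb.ne'
  subst hx
  subst hy
  subst hb
  by_cases hc : Ra = ra
  · subst hc
    exact wcf_tight hMIR hMIRW hTWO hK0 hKXB hKYX _ _ _ _ _ _ _ _ _ _ _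
      _ _ _ _ _ _ _ _ _ _ _ _ hD hW
  · have hlt : ra < Ra := lt_of_le_of_ne hD.ca (Ne.symm hc)
    have pb := hD.p
    have k1 : ch ra Ry (b1 + b2) = ch Ra Ry t1 := by
      apply hW.cay
      rw [hE.ay]
      exact (mul_pos (by linarith [hE.c1])
        (omc_pos71 (ch_pos71 pb.Ra0 pb.Ry0 pb.t10 pb.t1p) pb.pay)).ne'
    have k4 : ch ra Rb (b1 + b2 + b3) = ch Ra Rb t4 := by
      apply hW.cab
      rw [hE.ab]
      exact (mul_pos (by linarith [hE.c1])
        (omc_pos71 (ch_pos71 pb.Ra0 pb.Rb0 pb.t40 pb.t4p) pb.pab)).ne'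
    obtain ⟨_, _, _, h23, _, _⟩ := hTWO _ _ _ _ _ _ _ _ _ _ _ _ _ _ _
      _ _ _ _ _ _ _ _ _ _ _ _ hD hW
    by_cases c2 : ch Ry Rx b2 = ch Ry Rx t2
    · by_cases c3 : ch Rx Rb (b2 + b3) = ch Rx Rb t3
      · exact hKE0 _ _ _ _ _ _ _ _ _ _ _ _ hD hlt k1 c2 c3 k4 hE.k
      · exact hKXE _ _ _ _ _ _ _ _ _ _ _ _ _ _ _ _ _ _ _ _ _ _ _ _ hD hW hE hlt k1 c2
          (lt_of_le_of_ne hD.cxb c3) k4
    · have c3 : ch Rx Rb (b2 + b3) = ch Rx Rb t3 := by
        rcases h23 with h | h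
        · exact absurd h c2
        · exact h
      exact hKYE _ _ _ _ _ _ _ _ _ _ _ _ _ _ _ _ _ _ _ _ _ _ _ _ hD hW hE hlt k1
        (lt_of_le_of_ne hD.cyx c2) c3 k4

theorem WCFA : ST_WCFA := by
  intro hMIR hMIRW hSPKR hTWO hK0 hKE0 hKYE hKXE hKXB hKYX
  intro ra rx ry rb Ra Rx Ry Rb b1 b2 b3 t1 t2 t3 t4
    w0a w0x w0y w0b way wyx wxb wab χa χx χy χb hD hW
  rcases hSPKR _ _ _ _ _ _ _ _ _ _ _ _ _ _ _ _ _ _ _ _ _ _ _ _ _ _ _ hD hW with h | h | h
  · obtain ⟨h1, h2, h3, h4⟩ := h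
    have ha : Ra = ra := hW.c0a h1.ne'
    have hx : Rx = rx := hW.c0x h2.ne'
    have hy : Ry = ry := hW.c0y h3.ne'
    have hb : Rb = rb := hW.c0b h4.ne'
    subst ha
    subst hx
    subst hy
    subst hb
    exact wcf_tight hMIR hMIRW hTWO hK0 hKXB hKYX _ _ _ _ _ _ _ _ _ _ _
      _ _ _ _ _ _ _ _ _ _ _ _ hD hW
  · exact wcf_end hMIR hMIRW hTWO hK0 hKE0 hKYE hKXE hKXB hKYX _ _ _ _ _ _ _ _ _ _ _ _ _ _ _
      _ _ _ _ _ _ _ _ _ _ _ _ hD hW h
  · have hD' := hMIR _ _ _ _ _ _ _ _ _ _ _ _ _ _ _ hD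
    have hW' := hMIRW _ _ _ _ _ _ _ _ _ _ _ _ _ _ _ _ _ _ _ _ _ _ _ _ _ _ _ hD.p.ts hW
    exact wcf_end hMIR hMIRW hTWO hK0 hKE0 hKYE hKXE hKXB hKYX _ _ _ _ _ _ _ _ _ _ _ _ _ _ _
      _ _ _ _ _ _ _ _ _ _ _ _ hD' hW' h

end E5
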