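import Pool.Agent.Helper48.AX.Defs
import Pool.Agent.Helper15.E5.VSheet

/-!
MP_efd95c_co, Alexander's conjecture for contractions of at most five disks: definitions.
Everything is normalised to radius `1` and to points of the complex plane.
-/

set_option autoImplicit false

open scoped MeasureTheory ENNReal
open Complex

noncomputable section

namespace E5

/-- boundary length of the intersection of the closed unit disks with centres `c i` -/
def per {n : ℕ} (c : Fin n → ℂ) : ℝ := (μH[1] (frontier (AX.K 1 c))).toReal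

/-- `q` is a contraction of `p` -/
def Ctr {n : ℕ} (p q : Fin n → ℂ) : Prop := ∀ i j, dist (q i) (q j) ≤ dist (p i) (p j)

/-- the theorem for `n` disks of radius `1` -/
def Alex (n : ℕ) : Prop := ∀ p q : Fin n → ℂ, Ctr p q → per p ≤ per q

/-- a pair which violates the theorem as much as possible -/
structure MaxPair {n : ℕ} (p q : Fin n → ℂ) : Prop where
  ctr : Ctr p q
  pos : per q < per p
  max : ∀ p' q' : Fin n → ℂ, Ctr p' q' → per p' - per q' ≤ per p - per q

/-- length of the short unit arc with end points `x`, `y` -/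
def lg (x y : ℂ) : ℝ := 2 * AX.dl 1 x y

/-- tangent of half of that arc -/
def tn (x y : ℂ) : ℝ := dist x y / Real.sqrt (4 - dist x y ^ 2)

/-- `1 / sin (lg x y)`, the derivative of `lg` with respect to half of the squared distance -/
def om (x y : ℂ) : ℝ := 2 / (dist x y * Real.sqrt (4 - dist x y ^ 2))

/-- length of the closed tour along a cyclic list of indices -/
def ctour {n : ℕ} (c : Fin n → ℂ) (l : List (Fin n)) : ℝ :=
  (List.zipWith (fun i j => lg (c i) (c j)) l (l.rotate 1)).sum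

/-- sum of `2 tan (half arc)` along a cyclic list -/
def ctan {n : ℕ} (c : Fin n → ℂ) (l : List (Fin n)) : ℝ :=
  (List.zipWith (fun i j => 2 * tn (c i) (c j)) l (l.rotate 1)).sum

/-- gradient of `ctour c l` with respect to `c i` -/
def cgrad {n : ℕ} (c : Fin n → ℂ) (l : List (Fin n)) (i : Fin n) : ℂ :=
  (List.zipWith (fun u v => if u = i then (om (c u) (c v) : ℂ) * (c u - c v)
    else if v = i then (om (c u) (c v) : ℂ) * (c v - c u) else 0) l (l.rotate 1)).sum

/-- one period of the index sequence `g`, restricted to the indices in `S` -/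
def lst {n : ℕ} (g : ℤ → Fin n) (M : ℕ) (S : Finset (Fin n)) : List (Fin n) :=
  ((List.range M).map (fun k : ℕ => g (k : ℤ))).filter (fun i => decide (i ∈ S))

/-- Hull data of a family of centres: the `M` disks whose circles touch the intersection `K`, in
cyclic order, and the arcs `[a k, b k]` of directions which they contribute to the boundary
(`a k < b k`: fat, `a k = b k`: kink); everything is periodic in `k : ℤ`. -/
structure HD {n : ℕ} (c : Fin n → ℂ) (M : ℕ) (g : ℤ → Fin n) (a b : ℤ → ℝ) : Prop where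
  inj : Function.Injective c
  int : (interior (AX.K 1 c)).Nonempty
  two : 2 ≤ M
  gper : ∀ k, g (k + M) = g k
  ginj : ∀ k l, g k = g l → (M : ℤ) ∣ l - k
  cov : ∀ i, (AX.T 1 c i).Nonempty → ∃ k, g k = i
  aper : ∀ k, a (k + M) = a k + 2 * Real.pi
  bper : ∀ k, b (k + M) = b k + 2 * Real.pi
  le : ∀ k, a k ≤ b k
  ltpi : ∀ k, b k < a k + Real.pi
  mem : ∀ k θ, a k ≤ θ → θ < a k + 2 * Real.pi → (θ ∈ AX.T 1 c (g k) ↔ θ ≤ b k)
  step : ∀ k, b k + lg (c (g k)) (c (g (k + 1))) = a (k + 1)
  corner : ∀ k, c (g k) + AX.e (b k) = c (g (k + 1)) + AX.e (a (k + 1))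

/-- `S` contains all fat indices and only touching indices -/
def Adm {n : ℕ} (g : ℤ → Fin n) (a b : ℤ → ℝ) (S : Finset (Fin n)) : Prop :=
  (∀ k, a k < b k → g k ∈ S) ∧ ∀ i ∈ S, ∃ k, g k = i

/-- first order conditions at a maximal pair (`Lq`: the tour of `q`) -/
structure Crit {n : ℕ} (p q : Fin n → ℂ) (M : ℕ) (g : ℤ → Fin n) (a b : ℤ → ℝ)
    (Lq : List (Fin n)) (W : Fin n → Fin n → ℝ) (θ : Finset (Fin n) → ℝ) : Prop where
  nonneg : ∀ i j, 0 ≤ W i j
  symm : ∀ i j, W i j = W j i
  diag : ∀ i, W i i = 0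
  comp : ∀ i j, W i j ≠ 0 → dist (q i) (q j) = dist (p i) (p j)
  th0 : ∀ S, 0 ≤ θ S
  th1 : ∑ S, θ S = 1
  adm : ∀ S, θ S ≠ 0 → Adm g a b S
  eqq : ∀ i, ∑ j, (W i j : ℂ) * (q i - q j) = cgrad q Lq i
  eqp : ∀ i, ∑ j, (W i j : ℂ) * (p i - p j) = ∑ S, (θ S : ℂ) * cgrad p (lst g M S) i

/-- the cyclic order `gp` (period `M`) is the restriction of the cyclic order `gq` (period `N`) -/
def SameOrd {n : ℕ} (gp : ℤ → Fin n) (M : ℕ) (gq : ℤ → Fin n) (N : ℕ) : Prop :=
  ∃ φ : ℤ → ℤ, StrictMono φ ∧ (∀ k, φ (k + M) = φ k + N) ∧ ∀ k, gq (φ k) = gp k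

end E5
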