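import Pool.Agent.Helper71.E5.WDefs

/-!
MP_efd95c_co, wheels: module statements, part 1 (reduction of `ST_WHEEL` to data in the plane with
hub at the origin). Table efd5wrows.
-/

set_option autoImplicit false

open scoped MeasureTheory ENNReal Topology
open Complex

noncomputable section

namespace E5

/-! ### group N: normalisation -/

def ST_HDTR : Prop := ∀ (n : ℕ) (c : Fin n → ℂ) (M : ℕ) (g : ℤ → Fin n) (a b : ℤ → ℝ) (v : ℂ),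
  HD c M g a b → HD (fun i => c i + v) M g a b

def ST_HDROT : Prop := ∀ (n : ℕ) (c : Fin n → ℂ) (M : ℕ) (g : ℤ → Fin n) (a b : ℤ → ℝ) (t : ℝ),
  HD c M g a b → HD (fun i => AX.e t * c i) M g (fun k => a k + t) (fun k => b k + t)

/-- no maximal pair of type C -/
def ST_NOC : Prop := ∀ (p q : Fin 5 → ℂ) (ap bp aq bq : ℤ → ℝ), MaxPair p q →
  HD p 4 gC ap bp → HD q 5 gQ aq bq → (∀ k, aq k < bq k) → p 0 = 0 → q 0 = 0 → False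

/-- no maximal pair of type B -/
def ST_NOB : Prop := ∀ (p q : Fin 5 → ℂ) (ap bp aq bq : ℤ → ℝ), MaxPair p q →
  HD p 4 gB ap bp → HD q 5 gQ aq bq → (∀ k, aq k < bq k) → p 0 = 0 → q 0 = 0 → False

/-- names for the five points: relabelling, shift, reflection of `p` or `q`, translations -/
def ST_WNORM : Prop := ST_NOC → ST_NOB → ST_WHEEL

/-! ### group T: triangles and arcs -/

def ST_TRI : Prop := ∀ r s θ : ℝ, 0 < r → 0 < s → 0 < θ → θ < Real.pi → ch r s θ < 2 →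
  0 < ch r s θ ∧ ch r s θ = 2 * Real.sin (hd r s θ) ∧ 0 < hd r s θ ∧ hd r s θ < Real.pi / 2 ∧
  0 < un r s θ ∧ un r s θ < Real.pi ∧
  r - s * Real.cos θ = ch r s θ * Real.cos (un r s θ) ∧
  s * Real.sin θ = ch r s θ * Real.sin (un r s θ) ∧
  un r s θ + un s r θ + θ = Real.pi ∧
  tq r s θ = r * (Real.sin (un r s θ) / Real.cos (hd r s θ)) ∧
  Real.sin (un r s θ) / Real.cos (hd r s θ) =
    Real.sin (UU r s θ) - TT r s θ * Real.cos (UU r s θ) ∧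
  Real.cos (un r s θ) / Real.cos (hd r s θ) =
    Real.cos (UU r s θ) + TT r s θ * Real.sin (UU r s θ)

def ST_TSYM : Prop := ∀ r s θ : ℝ, ch r s θ = ch s r θ ∧ hd r s θ = hd s r θ ∧
  TT r s θ = TT s r θ ∧ tq r s θ = tq s r θ

/-- the unit arc from `x - e s` to `x - e t` seen from the hub `0` (on its left side) -/
def ST_WARC : Prop := ∀ (x : ℂ) (s t r r' φ θ : ℝ), s < t → t < s + Real.pi → 0 < r → 0 < r' →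
  0 < θ → θ < Real.pi → x - AX.e s = (r : ℂ) * AX.e φ → x - AX.e t = (r' : ℂ) * AX.e (φ + θ) →
  AX.e s = AX.e (φ + 3 * Real.pi / 2 - UU r r' θ) ∧
  AX.e t = AX.e (φ + θ + Real.pi / 2 + UU r' r θ) ∧ t - s = 2 * hd r r' θ ∧ ch r r' θ < 2

/-- arcs which start or end at the hub -/
def ST_WARC0 : Prop := ∀ (x : ℂ) (s t r φ : ℝ), s < t → t < s + Real.pi → 0 < r →
  (x - AX.e s = 0 → x - AX.e t = (r : ℂ) * AX.e φ →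
    AX.e s = AX.e (φ + Real.pi / 2 - h0 r) ∧ AX.e t = AX.e (φ + Real.pi / 2 + h0 r) ∧
    t - s = 2 * h0 r ∧ r < 2) ∧
  (x - AX.e s = (r : ℂ) * AX.e φ → x - AX.e t = 0 →
    AX.e s = AX.e (φ + 3 * Real.pi / 2 - h0 r) ∧ AX.e t = AX.e (φ - Real.pi / 2 + h0 r) ∧
    t - s = 2 * h0 r ∧ r < 2)

/-- three touching points are in counterclockwise position -/
def ST_ORI : Prop := ∀ (n : ℕ) (c : Fin n → ℂ) (M : ℕ) (g : ℤ → Fin n) (a b : ℤ → ℝ),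
  HD c M g a b → ∀ i j k : ℤ, i < j → j < k → k < i + M →
  0 < crs (c (g j) - c (g i)) (c (g k) - c (g i))

/-! ### group P: the tests by tours -/

/-- every closed tour through all points of a full family is at least `2 π - per` -/
def ST_TOURL : Prop := ∀ (n : ℕ) (q : Fin n → ℂ) (g : ℤ → Fin n) (a b : ℤ → ℝ) (l : List (Fin n)),
  HD q n g a b → l.Nodup → l.length = n → 2 * Real.pi - per q ≤ ctour q l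

/-- (H) the hub test -/
def ST_HTEST : Prop := ∀ (n : ℕ) (p q : Fin n → ℂ) (M : ℕ) (gp : ℤ → Fin n) (ap bp : ℤ → ℝ)
  (gq : ℤ → Fin n) (aq bq : ℤ → ℝ) (o : Fin n), MaxPair p q → HD p M gp ap bp →
  HD q n gq aq bq → (∀ k, aq k < bq k) → M + 1 = n → (∀ k, gp k ≠ o) →
  ∀ k, lg (p (gp k)) (p (gp (k + 1))) < lg (p (gp k)) (p o) + lg (p o) (p (gp (k + 1)))

/-- the hub lies strictly inside the flat polygon of `p` -/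
def ST_INHUB : Prop := ∀ (n : ℕ) (p q : Fin n → ℂ) (M : ℕ) (gp : ℤ → Fin n) (ap bp : ℤ → ℝ)
  (gq : ℤ → Fin n) (aq bq : ℤ → ℝ) (o : Fin n), MaxPair p q → HD p M gp ap bp →
  HD q n gq aq bq → (∀ k, aq k < bq k) → M + 1 = n → (∀ k, gp k ≠ o) →
  ∀ k, 0 < crs (p (gp k) - p o) (p (gp (k + 1)) - p o)

/-- (G1) the rim diagonals are slack -/
def ST_G1C : Prop := Alex 4 → Alex 3 → ∀ (p q : Fin 5 → ℂ) (ap bp aq bq : ℤ → ℝ), MaxPair p q →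
  HD p 4 gC ap bp → HD q 5 gQ aq bq → (∀ k, aq k < bq k) →
  dist (q 1) (q 2) < dist (p 1) (p 2) ∧ dist (q 3) (q 4) < dist (p 3) (p 4)

def ST_G1B : Prop := Alex 4 → Alex 3 → ∀ (p q : Fin 5 → ℂ) (ap bp aq bq : ℤ → ℝ), MaxPair p q →
  HD p 4 gB ap bp → HD q 5 gQ aq bq → (∀ k, aq k < bq k) →
  dist (q 1) (q 4) < dist (p 1) (p 4) ∧ dist (q 2) (q 3) < dist (p 2) (p 3)

/-! ### group D: data in polar coordinates -/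

/-- the fan of `q` -/
def ST_WQ : Prop := ∀ (q : Fin 5 → ℂ) (aq bq : ℤ → ℝ), HD q 5 gQ aq bq → q 0 = 0 →
  ∃ φ b1 b2 b3 : ℝ, 0 < b1 ∧ 0 < b2 ∧ 0 < b3 ∧ b1 + b2 + b3 < Real.pi ∧
    (∀ i, i ≠ 0 → 0 < ‖q i‖ ∧ ‖q i‖ < 2) ∧ ch ‖q 1‖ ‖q 2‖ b1 < 2 ∧ ch ‖q 2‖ ‖q 3‖ b2 < 2 ∧
    ch ‖q 3‖ ‖q 4‖ b3 < 2 ∧ q 1 = (‖q 1‖ : ℂ) * AX.e φ ∧ q 2 = (‖q 2‖ : ℂ) * AX.e (φ + b1) ∧
    q 3 = (‖q 3‖ : ℂ) * AX.e (φ + b1 + b2) ∧ q 4 = (‖q 4‖ : ℂ) * AX.e (φ + b1 + b2 + b3) ∧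
    bq 0 - aq 0 = Real.pi - (b1 + b2 + b3) - h0 ‖q 1‖ - h0 ‖q 4‖ ∧
    bq 1 - aq 1 = Real.pi - UU ‖q 1‖ ‖q 2‖ b1 - h0 ‖q 1‖ ∧
    bq 2 - aq 2 = Real.pi - UU ‖q 2‖ ‖q 1‖ b1 - UU ‖q 2‖ ‖q 3‖ b2 ∧
    bq 3 - aq 3 = Real.pi - UU ‖q 3‖ ‖q 2‖ b2 - UU ‖q 3‖ ‖q 4‖ b3 ∧
    bq 4 - aq 4 = Real.pi - UU ‖q 4‖ ‖q 3‖ b3 - h0 ‖q 4‖ ∧
    AX.e (bq 1) = AX.e (φ + 3 * Real.pi / 2 - UU ‖q 1‖ ‖q 2‖ b1) ∧
    AX.e (aq 1) = AX.e (φ + Real.pi / 2 + h0 ‖q 1‖) ∧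
    AX.e (bq 2) = AX.e (φ + b1 + 3 * Real.pi / 2 - UU ‖q 2‖ ‖q 3‖ b2) ∧
    AX.e (aq 2) = AX.e (φ + b1 + Real.pi / 2 + UU ‖q 2‖ ‖q 1‖ b1) ∧
    AX.e (bq 3) = AX.e (φ + b1 + b2 + 3 * Real.pi / 2 - UU ‖q 3‖ ‖q 4‖ b3) ∧
    AX.e (aq 3) = AX.e (φ + b1 + b2 + Real.pi / 2 + UU ‖q 3‖ ‖q 2‖ b2) ∧
    AX.e (bq 4) = AX.e (φ + b1 + b2 + b3 + 3 * Real.pi / 2 - h0 ‖q 4‖) ∧
    AX.e (aq 4) = AX.e (φ + b1 + b2 + b3 + Real.pi / 2 + UU ‖q 4‖ ‖q 3‖ b3) ∧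
    AX.e (bq 0) = AX.e (φ + Real.pi / 2 - h0 ‖q 1‖) ∧
    AX.e (aq 0) = AX.e (φ + b1 + b2 + b3 - Real.pi / 2 + h0 ‖q 4‖)

/-- the wheel of `p`, for any order of the rim -/
def ST_WP : Prop := ∀ (p : Fin 5 → ℂ) (g : ℤ → Fin 5) (ap bp : ℤ → ℝ), HD p 4 g ap bp →
  p 0 = 0 → (∀ k, 0 < crs (p (g k)) (p (g (k + 1)))) →
  ∃ φ t : ℤ → ℝ, (∀ k, 0 < t k ∧ t k < Real.pi) ∧ (∀ k, t (k + 4) = t k) ∧
    (∀ k, φ (k + 1) = φ k + t k) ∧ t 0 + t 1 + t 2 + t 3 = 2 * Real.pi ∧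
    (∀ k, p (g k) = (‖p (g k)‖ : ℂ) * AX.e (φ k)) ∧ (∀ k, 0 < ‖p (g k)‖) ∧
    (∀ k, AX.e (bp k) = AX.e (φ k + 3 * Real.pi / 2 - UU ‖p (g k)‖ ‖p (g (k + 1))‖ (t k))) ∧
    (∀ k, AX.e (ap k) = AX.e (φ k + Real.pi / 2 + UU ‖p (g k)‖ ‖p (g (k - 1))‖ (t (k - 1)))) ∧
    (∀ k, bp k - ap k = Real.pi - UU ‖p (g k)‖ ‖p (g (k + 1))‖ (t k) -
      UU ‖p (g k)‖ ‖p (g (k - 1))‖ (t (k - 1))) ∧
    (∀ k, ch ‖p (g k)‖ ‖p (g (k + 1))‖ (t k) < 2)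

/-- forces in the frame of the vertex -/
def ST_FRC : Prop := ∀ φ U w τ s : ℝ,
  (AX.e s = AX.e (φ + 3 * Real.pi / 2 - U) →
    AX.e s * ((w : ℂ) * I - (τ : ℂ)) = AX.e φ * (starRingEnd ℂ) (zf U w τ)) ∧
  (AX.e s = AX.e (φ + Real.pi / 2 + U) →
    AX.e s * (-((w : ℂ) * I) - (τ : ℂ)) = AX.e φ * zf U w τ)

end E5
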