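import Pool.Agent.Helper71.E5.FIVE
import Pool.Agent.Helper71.E5.WStmts

/-! MP_efd95c_co: the induction for at most five disks, with the wheels as a hypothesis. -/

set_option autoImplicit false

open scoped MeasureTheory ENNReal Topology
open Complex

noncomputable section

namespace E5

theorem FIVE_gen (hSMALL : ST_SMALL) (hEX : ST_EX) (hFULL : ST_FULL) (hINT : ST_INT)
    (hHD : ST_HD) (hHDFULL : ST_HDFULL) (hTOUCH : ST_TOUCH) (hTHREE : ST_THREE)
    (hSAME : ST_SAME) (hPISO : ST_PISO) (hREF : ST_HDREF) (N : ℕ) (hN : N ≤ 5)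
    (hWHEEL : N = 5 → ST_WHEEL) : ∀ n ≤ N, Alex n := by
  intro n
  induction n with
  | zero => intro _; exact hSMALL.1
  | succ n ih =>
    intro hn5
    rcases n with _ | m
    · exact hSMALL.2
    · have hA : Alex (m + 1) := ih (by omega)
      by_contra hno
      obtain ⟨p, q, hmax⟩ := hEX (m + 2) hno
      obtain ⟨hqi, hqa⟩ := hFULL m hA p q hmax
      obtain ⟨hpint, hqint⟩ := hINT _ p q hmax
      have hpi : Function.Injective p := by
        intro i j hij
        apply hqi
        have := hmax.ctr i j
        rw [hij, dist_self] at this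
        exact dist_le_zero.1 this
      obtain ⟨M, gp, ap, bp, hp⟩ := hHD _ p (by omega) hpi hpint
      obtain ⟨M', gq, aq, bq, hq⟩ := hHD _ q (by omega) hqi hqint
      obtain ⟨hM', hfull⟩ := hHDFULL _ q M' gq aq bq hq hqa
      rw [hM'] at hq
      have hMn : M ≤ m + 2 := le_card hp.ginj
      rcases (by omega : M ≤ 3 ∨ M = m + 2 ∨ (M = 4 ∧ m = 3 ∧ N = 5)) with h | h | ⟨h, h', h''⟩
      · exact hTHREE _ p q M gp ap bp gq aq bq hmax hp hq hfull h
      · rw [h] at hp
        have := hTOUCH _ p q hmax.ctr (fun i => by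
          obtain ⟨k, hk⟩ := surj_full (by omega) hp.gper hp.ginj i
          rw [← hk]
          exact ⟨ap k, (hp.mem k (ap k) le_rfl (by linarith [Real.pi_pos])).2 (hp.le k)⟩)
        have := hmax.pos
        linarith
      · subst h
        subst h'
        by_cases hs : SameOrd gp 4 gq 5
        · exact hSAME _ p q 4 gp ap bp gq aq bq hmax hp hq hfull hs
        · by_cases hs' : SameOrd gp 4 (fun k => gq (-k)) 5
          · exact same_ref hSAME hPISO hREF hmax hp hq hfull hs'
          · exact hWHEEL h'' p q gp ap bp gq aq bq hmax hp hq hfull hs hs'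

end E5
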