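import Pool.Agent.Helper71.E5.WStmts3

/-!
MP_efd95c_co, wheels of type C: from the pair to real numbers (row NOCR).
-/

set_option autoImplicit false

open scoped MeasureTheory ENNReal Topology
open Complex

noncomputable section

namespace E5

theorem gC_ne71 (k : ℤ) : gC k ≠ 0 := by
  unfold gC
  split_ifs <;> decide

theorem gC0_71 : gC 0 = 1 := by decide
theorem gC1_71 : gC 1 = 3 := by decide
theorem gC2_71 : gC 2 = 2 := by decide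
theorem gC3_71 : gC 3 = 4 := by decide

theorem gC_eq71 {k l : ℤ} (h : k % 4 = l % 4) : gC k = gC l := by
  unfold gC
  rw [h]

theorem hd71 {p : Fin 5 → ℂ} {ap bp : ℤ → ℝ} (hP : HD p 4 gC ap bp) (k : ℤ) (m : ℤ) :
    ap (k + 4 * m) = bp (k + 4 * m) ↔ ap k = bp k := by
  have ha : ∀ m : ℤ, ap (k + 4 * m) = ap k + 2 * Real.pi * m := by
    intro m
    induction m using Int.induction_on with
    | zero => simp
    | succ i ih =>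
      have h := hP.aper (k + 4 * i)
      have e1 : k + 4 * ((i : ℤ) + 1) = k + 4 * i + (4 : ℕ) := by push_cast; ring
      rw [e1, h, ih]
      push_cast
      ring
    | pred i ih =>
      have h := hP.aper (k + 4 * (-(i : ℤ) - 1))
      have e1 : k + 4 * (-(i : ℤ) - 1) + (4 : ℕ) = k + 4 * (-(i : ℤ)) := by push_cast; ring
      rw [e1, ih] at h
      push_cast at h ⊢
      linarith
  have hb : ∀ m : ℤ, bp (k + 4 * m) = bp k + 2 * Real.pi * m := by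
    intro m
    induction m using Int.induction_on with
    | zero => simp
    | succ i ih =>
      have h := hP.bper (k + 4 * i)
      have e1 : k + 4 * ((i : ℤ) + 1) = k + 4 * i + (4 : ℕ) := by push_cast; ring
      rw [e1, h, ih]
      push_cast
      ring
    | pred i ih =>
      have h := hP.bper (k + 4 * (-(i : ℤ) - 1))
      have e1 : k + 4 * (-(i : ℤ) - 1) + (4 : ℕ) = k + 4 * (-(i : ℤ)) := by push_cast; ring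
      rw [e1, ih] at h
      push_cast at h ⊢
      linarith
  rw [ha, hb]
  constructor
  · intro h; linarith
  · intro h; linarith

theorem NOCR (hINHUB : ST_INHUB) (hHTEST : ST_HTEST) (hNKA : ST_NKA) (hG1C : ST_G1C)
    (hRQ : ST_RQ) (hRP : ST_RP) (hKKT : ST_KKT) (hKCC : ST_KCC) (hKQQ : ST_KQQ)
    (hWWR : ST_WWR) (hPOS : ST_POS) (hPDL : ST_PDL) (hGEND : ST_GEND) (hFOLDP : ST_FOLDP)
    (hTSYM : ST_TSYM) : ST_NOCR := by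
  intro hA4 hA3 hTH hWCF p q ap bp aq bq hM hP hQ hF p0 q0
  have hcrs : ∀ k, 0 < crs (p (gC k)) (p (gC (k + 1))) := by
    intro k
    have h := hINHUB 5 p q 4 gC ap bp gQ aq bq 0 hM hP hQ hF rfl gC_ne71 k
    rw [p0, sub_zero, sub_zero] at h
    exact h
  have hlg : ∀ k, lg (p (gC k)) (p (gC (k + 1))) < lg (p (gC k)) 0 + lg 0 (p (gC (k + 1))) := by
    intro k
    have h := hHTEST 5 p q 4 gC ap bp gQ aq bq 0 hM hP hQ hF rfl gC_ne71 k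
    rw [p0] at h
    exact h
  have hnk := hNKA p q gC ap bp gQ aq bq 0 hM hP hQ hF gC_ne71
  obtain ⟨hg1, hg2⟩ := hG1C hA4 hA3 p q ap bp aq bq hM hP hQ hF
  obtain ⟨φ, b1, b2, b3, q1, q2, q3, q4, wq⟩ := hRQ q aq bq hQ hF q0
  obtain ⟨ψ, t1, t2, t3, t4, p1, p3, p2, p4, wp, g0, g1, g2, g3⟩ :=
    hRP p ap bp hP p0 hcrs hlg hnk
  obtain ⟨W, θ, hC⟩ := hKKT 5 p q 4 gC ap bp gQ aq bq hM hP hQ hF
  obtain ⟨χ, hχ, _, hχk, hload⟩ := hKCC p ap bp θ hP hnk hC.th0 hC.th1 hC.adm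
  have hW12 : W 1 2 = 0 := by
    by_contra h
    exact absurd (hC.comp 1 2 h) hg1.ne
  have hW34 : W 3 4 = 0 := by
    by_contra h
    exact absurd (hC.comp 3 4 h) hg2.ne
  have hk1 : χ 1 ≠ 0 → UU ‖p 1‖ ‖p 3‖ t1 + UU ‖p 1‖ ‖p 4‖ t4 = Real.pi := by
    intro h
    have h1 : ap 0 = bp 0 := hχk 0 (by rw [gC0_71]; exact h)
    linarith
  have hk2 : χ 2 ≠ 0 → UU ‖p 2‖ ‖p 3‖ t2 + UU ‖p 2‖ ‖p 4‖ t3 = Real.pi := by
    intro h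
    have h1 : ap 2 = bp 2 := hχk 2 (by rw [gC2_71]; exact h)
    linarith
  have hk3 : χ 3 ≠ 0 → UU ‖p 3‖ ‖p 1‖ t1 + UU ‖p 3‖ ‖p 2‖ t2 = Real.pi := by
    intro h
    have h1 : ap 1 = bp 1 := hχk 1 (by rw [gC1_71]; exact h)
    linarith
  have hk4 : χ 4 ≠ 0 → UU ‖p 4‖ ‖p 2‖ t3 + UU ‖p 4‖ ‖p 1‖ t4 = Real.pi := by
    intro h
    have h1 : ap 3 = bp 3 := hχk 3 (by rw [gC3_71]; exact h)
    linarith
  have hWW := hWWR p q W χ ‖q 1‖ ‖q 2‖ ‖q 3‖ ‖q 4‖ ‖p 1‖ ‖p 2‖ ‖p 3‖ ‖p 4‖ φ b1 b2 b3 ψ t1 t2 t3 t4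
    q0 q1 q2 q3 q4 p0 p1 p3 p2 p4 wq wp hC.nonneg hC.symm hC.diag hC.comp hW12 hW34 hχ
    hk1 hk2 hk3 hk4
    (fun i => by rw [hC.eqq i, hKQQ q i]) (fun i => by rw [hC.eqp i, hload i])
  obtain ⟨hga, hgb⟩ := hGEND hTH p q ap bp aq bq ‖q 1‖ ‖q 2‖ ‖q 3‖ ‖q 4‖ ‖p 1‖ ‖p 2‖ ‖p 3‖ ‖p 4‖
    φ b1 b2 b3 ψ t1 t2 t3 t4 hM hP hQ hF q0 q1 q2 q3 q4 p0 p1 p3 p2 p4 wq wp
  have hfo : ‖p 1‖ = ‖q 1‖ → ‖p 2‖ = ‖q 2‖ → ‖p 3‖ = ‖q 3‖ → ‖p 4‖ = ‖q 4‖ → t4 = b1 + b2 + b3 →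
      (t1 = b1 + b2 → t3 = b2 + b3 → Real.pi < (b1 + b2) + (b1 + b2 + b3) ∧
        Real.pi < (b2 + b3) + (b1 + b2 + b3)) ∧
      (t1 = b1 + b2 → t2 = b2 → Real.pi < (b1 + b2) + (b1 + b2 + b3)) ∧
      (t3 = b2 + b3 → t2 = b2 → Real.pi < (b2 + b3) + (b1 + b2 + b3)) := by
    intro e1 e2 e3 e4
    rw [e1] at p1
    rw [e2] at p2
    rw [e3] at p3
    rw [e4] at p4
    rw [e1, e2, e3, e4] at wp
    exact hFOLDP p q ap bp aq bq ‖q 1‖ ‖q 2‖ ‖q 3‖ ‖q 4‖ φ b1 b2 b3 ψ t1 t2 t3 t4 hM hP hQ hF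
      q0 q1 q2 q3 q4 p0 p1 p3 p2 p4 wq wp
  -- distances
  have cs : ∀ r s θ, ch r s θ = ch s r θ := fun r s θ => (hTSYM r s θ).1
  have ds : ∀ r s θ, hd r s θ = hd s r θ := fun r s θ => (hTSYM r s θ).2.1
  have dd : ∀ (x y : ℂ) (r s α β δ : ℝ), x = (r : ℂ) * AX.e α → y = (s : ℂ) * AX.e β →
      β - α = δ → dist x y = ch r s δ := by
    intro x y r s α β δ hx hy hδ
    have h := (hPDL r s α (β - α)).1
    rw [add_sub_cancel] at h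
    rw [hx, hy, h, hδ]
  have ts := wp.ts
  have c4 : ch ‖p 1‖ ‖p 4‖ (t1 + t2 + t3) = ch ‖p 1‖ ‖p 4‖ t4 := by
    have e1 : t1 + t2 + t3 = -t4 + 2 * Real.pi := by linarith
    rw [e1, (hPDL _ _ 0 _).2.2.2.2, (hPDL _ _ 0 _).2.2.2.1]
  have c4' : hd ‖p 1‖ ‖p 4‖ (t1 + t2 + t3) = hd ‖p 1‖ ‖p 4‖ t4 := by
    unfold hd
    rw [c4]
  have n : ∀ i, ‖q i‖ ≤ ‖p i‖ := by
    intro i
    have h := hM.ctr i 0
    rw [q0, p0, dist_zero_right, dist_zero_right] at h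
    exact h
  have q12 : dist (q 1) (q 2) = ch ‖q 1‖ ‖q 2‖ b1 :=
    dd _ _ _ _ _ _ _ q1 q2 (by ring)
  have q13 : dist (q 1) (q 3) = ch ‖q 1‖ ‖q 3‖ (b1 + b2) :=
    dd _ _ _ _ _ _ _ q1 q3 (by ring)
  have q14 : dist (q 1) (q 4) = ch ‖q 1‖ ‖q 4‖ (b1 + b2 + b3) :=
    dd _ _ _ _ _ _ _ q1 q4 (by ring)
  have q23 : dist (q 2) (q 3) = ch ‖q 2‖ ‖q 3‖ b2 :=
    dd _ _ _ _ _ _ _ q2 q3 (by ring)
  have q24 : dist (q 2) (q 4) = ch ‖q 2‖ ‖q 4‖ (b2 + b3) :=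
    dd _ _ _ _ _ _ _ q2 q4 (by ring)
  have q34 : dist (q 3) (q 4) = ch ‖q 3‖ ‖q 4‖ b3 :=
    dd _ _ _ _ _ _ _ q3 q4 (by ring)
  have p13 : dist (p 1) (p 3) = ch ‖p 1‖ ‖p 3‖ t1 :=
    dd _ _ _ _ _ _ _ p1 p3 (by ring)
  have p32 : dist (p 3) (p 2) = ch ‖p 3‖ ‖p 2‖ t2 :=
    dd _ _ _ _ _ _ _ p3 p2 (by ring)
  have p24 : dist (p 2) (p 4) = ch ‖p 2‖ ‖p 4‖ t3 :=
    dd _ _ _ _ _ _ _ p2 p4 (by ring)
  have p12 : dist (p 1) (p 2) = ch ‖p 1‖ ‖p 2‖ (t1 + t2) :=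
    dd _ _ _ _ _ _ _ p1 p2 (by ring)
  have p34 : dist (p 3) (p 4) = ch ‖p 3‖ ‖p 4‖ (t2 + t3) :=
    dd _ _ _ _ _ _ _ p3 p4 (by ring)
  have p14 : dist (p 1) (p 4) = ch ‖p 1‖ ‖p 4‖ t4 := by
    rw [← c4]
    exact dd _ _ _ _ _ _ _ p1 p4 (by ring)
  have hdc : ∀ x y : ℂ, AX.dl 1 x y = Real.arcsin (dist x y / 2) := by
    intro x y
    unfold AX.dl
    rw [mul_one]
  have hpos := hPOS p q ap bp aq bq hM hP hQ
  have d0 : ∀ x : ℂ, AX.dl 1 0 x = h0 ‖x‖ := by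
    intro x
    rw [hdc, dist_zero_left]
    rfl
  rw [q0, d0, d0] at hpos
  simp only [hdc, q12, q23, q34, p13, p32, p24, p14] at hpos
  refine hWCF _ _ _ _ _ _ _ _ _ _ _ _ _ _ _ _ _ _ _ _ _ _ _ _ _ _ _
    ⟨wq, wp, n 1, n 2, n 3, n 4, ?_, ?_, ?_, ?_, ?_, ?_, ?_, hga, hgb,
      fun e1 e2 e3 e4 f1 f3 f4 => (hfo e1 e2 e3 e4 f4).1 f1 f3,
      fun e1 e2 e3 e4 f1 f2 f4 => (hfo e1 e2 e3 e4 f4).2.1 f1 f2,
      fun e1 e2 e3 e4 f3 f2 f4 => (hfo e1 e2 e3 e4 f4).2.2 f3 f2⟩ hWW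
  · rw [← q13, ← p13]
    exact hM.ctr 1 3
  · rw [cs, ← q23, ← p32, dist_comm (p 3) (p 2)]
    exact hM.ctr 2 3
  · rw [← q24, ← p24]
    exact hM.ctr 2 4
  · rw [← q14, ← p14]
    exact hM.ctr 1 4
  · rw [← q12, ← p12]
    exact hg1
  · rw [← q34, ← p34]
    exact hg2
  · exact hpos

end E5
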