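import Pool.Agent.Helper71.E5.Cyc

/-! No maximal pair in the same cyclic order. -/

set_option autoImplicit false

open scoped MeasureTheory ENNReal
open Complex

noncomputable section

namespace E5

theorem norm_kink (a w x y : ℝ) (hxy : 0 ≤ x + y) :
    ‖AX.e a * ((w : ℂ) * I - (x : ℂ)) + AX.e a * (-((w : ℂ) * I) - (y : ℂ))‖ = x + y := by
  have h : AX.e a * ((w : ℂ) * I - (x : ℂ)) + AX.e a * (-((w : ℂ) * I) - (y : ℂ))
      = -(AX.e a * ((x + y : ℝ) : ℂ)) := by push_cast; ring
  rw [h, norm_neg, norm_mul]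
  have h1 : ‖AX.e a‖ = 1 := by
    unfold AX.e
    exact Complex.norm_exp_ofReal_mul_I a
  rw [h1, one_mul, Complex.norm_real, Real.norm_eq_abs, abs_of_nonneg hxy]

theorem arctan_le_of (hLG : ST_LG) {n : ℕ} {p : Fin n → ℂ}
    {a b : ℝ} {i j : Fin n} {x : ℝ} (hd : dist (p i) (p j) < 2)
    (hang : b + lg (p i) (p j) ≤ a + Real.pi) (hx : x ≤ tn (p i) (p j)) :
    b - a ≤ Real.pi - 2 * Real.arctan x := by
  obtain ⟨-, -, -, -, -, h6, -⟩ := hLG
  have h := (h6 (p i) (p j) hd).2.2.1
  have h1 : Real.arctan x ≤ Real.arctan (tn (p i) (p j)) := Real.arctan_strictMono.monotone hx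
  linarith

theorem SAME_aux (hTAN : ST_TAN) (hLOAD : ST_LOAD) (hEFF : ST_EFF) (hCGQ : ST_CGQ)
    (hNRM : ST_NRM) (hANG : ST_ANG) (hVL : ST_VL) (hK : ST_K) (hCRED : ST_CRED)
    (hPERHD : ST_PERHD) (hLG : ST_LG) (hD2 : ST_D2) (hKKT : ST_KKT) : ST_SAME := by
  intro n p q M gp ap bp gq aq bq hmax hp hq hfull hsame
  obtain ⟨φ, hφ, hφM, hφg⟩ := hsame
  obtain ⟨W, θ, hc⟩ := hKKT n p q M gp ap bp gq aq bq hmax hp hq hfull
  have htan := hTAN n p q M gp ap bp gq aq bq W θ hp hq hc
  have hload := hLOAD n p q M gp ap bp _ W θ hmax.ctr hc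
  obtain ⟨w, al, be, hwper, hwpos, hwfat, hwfar, hwvec, hwsum⟩ :=
    hEFF n p M gp ap bp θ hp hc.th0 hc.th1 hc.adm
  obtain ⟨hq1, hq2⟩ := hCGQ n q gq aq bq hq
  have hd := hD2 n p hp.int
  have hn : 0 < n := by have := hq.two; omega
  have hM : 0 < M := by have := hp.two; omega
  have hdq : ∀ i j, dist (q i) (q j) < 2 := fun i j => lt_of_le_of_lt (hmax.ctr i j) (hd i j)
  have htnmono : ∀ i j, tn (q i) (q j) ≤ tn (p i) (p j) := fun i j =>
    hLG.2.2.1 _ _ _ _ (hmax.ctr i j) (hd i j)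
  have htn0 : ∀ i j, 0 ≤ tn (q i) (q j) := fun i j => (hLG.2.2.2.2.2.1 _ _ (hdq i j)).2.2.2
  have htsym : ∀ x y, tn x y = tn y x := fun x y => (hLG.1 x y).2.1
  -- data of q as functions of the index
  set nx := nxt gq hn hq.gper hq.ginj with hnx
  have hnx1 : ∀ k, nx (gq k) = gq (k + 1) := nxt_apply hn hq.gper hq.ginj
  have hnx2 : ∀ k, nx.symm (gq k) = gq (k - 1) := nxt_symm hn hq.gper hq.ginj
  let t : Fin n → ℝ := fun i => tn (q i) (q (nx i))
  let eF : Fin n → ℝ := fun i => bq (pos gq i) - aq (pos gq i)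
  have heper : ∀ k, (fun k => bq k - aq k) (k + n) = (fun k => bq k - aq k) k := by
    intro k
    simp only [hq.aper, hq.bper]
    ring
  have heF : ∀ k, eF (gq k) = bq k - aq k := fun k =>
    pos_per hq.ginj (f := fun k => bq k - aq k) heper k
  have heF0 : ∀ i, 0 < eF i := fun i => by
    have := hfull (pos gq i)
    simp only [eF]
    linarith
  -- the vertex inequality
  set VA := rng gp with hVA
  let cr : Fin n → ℝ := fun i => (if nx i ∈ VA then t i else 2 * t i) +
    (if nx.symm i ∈ VA then t (nx.symm i) else 2 * t (nx.symm i))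
  have hvert : ∀ k : ℤ, (bp k - ap k) + (al k + be k) ≤ eF (gp k) + cr (gp k) := by
    intro k
    have hgk : gq (φ k) = gp k := hφg k
    set K := φ k with hKdef
    have e1 : eF (gp k) = bq K - aq K := by rw [← hgk, heF]
    have e2 : nx (gp k) = gq (K + 1) := by rw [← hgk, hnx1]
    have e3 : nx.symm (gp k) = gq (K - 1) := by rw [← hgk, hnx2]
    have e4 : nx (gq (K - 1)) = gq K := by rw [hnx1]; congr 1; ring
    set y := tn (q (gq K)) (q (gq (K + 1))) with hy
    set x := tn (q (gq (K - 1))) (q (gq K)) with hx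
    have et1 : t (gp k) = y := by simp only [t, e2, hy, hgk]
    have et2 : t (nx.symm (gp k)) = x := by
      simp only [t, e3, e4, hx]
    have hx0 : 0 ≤ x := htn0 _ _
    have hy0 : 0 ≤ y := htn0 _ _
    have ecr : cr (gp k) = (if gq (K + 1) ∈ VA then y else 2 * y) +
        (if gq (K - 1) ∈ VA then x else 2 * x) := by
      simp only [cr]
      rw [et1, et2, e2, e3]
    -- loads
    have hl := hload (gp k)
    rw [hwvec k, ← hgk, hq1 K, hgk] at hl
    have hN : N2 (bq K - aq K) x y =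
        ‖AX.e (bq K) * (I - (y : ℂ)) + AX.e (aq K) * (-I - (x : ℂ))‖ ^ 2 := by
      rw [hNRM]
    have hε0 : 0 ≤ bq K - aq K := by linarith [hq.le K]
    have hεπ : bq K - aq K ≤ Real.pi := by linarith [hq.ltpi K]
    obtain ⟨hw0, hw1, hal0, hbe0⟩ := hwpos k
    have hl' : ‖AX.e (bp k) * ((w k : ℂ) * I - (al k : ℂ)) +
        AX.e (ap k) * (-((w k : ℂ) * I) - (be k : ℂ))‖ ≤
        ‖AX.e (bq K) * (I - (y : ℂ)) + AX.e (aq K) * (-I - (x : ℂ))‖ := by
      rw [hgk] at hx hy
      rw [hx, hy]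
      exact hl
    rcases lt_or_eq_of_le (hp.le k) with hfat | hkink
    · -- fat vertex
      obtain ⟨hw, hfal, hfbe⟩ := hwfat k hfat
      have hN2 : N2 (bp k - ap k) (be k) (al k) ≤ N2 (bq K - aq K) x y := by
        rw [hN]
        have h1 := hNRM (ap k) (bp k) (al k) (be k)
        rw [← h1]
        rw [hw] at hl'
        simp only [Complex.ofReal_one, one_mul] at hl'
        exact pow_le_pow_left₀ (norm_nonneg _) hl' 2
      obtain ⟨⟨j1, hj1, hj1'⟩, ⟨j2, hj2, hj2'⟩⟩ := hwfar k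
      have hne1 : gq (K + 1) ≠ gp k := by
        intro h
        rw [← hgk] at h
        obtain ⟨z, hz⟩ := hq.ginj _ _ h
        have h2 := hq.two
        have : (n : ℤ) ∣ 1 := ⟨-z, by linarith⟩
        have := Int.le_of_dvd (by norm_num) this
        omega
      have hne2 : gq (K - 1) ≠ gp k := by
        intro h
        rw [← hgk] at h
        obtain ⟨z, hz⟩ := hq.ginj _ _ h
        have h2 := hq.two
        have : (n : ℤ) ∣ 1 := ⟨z, by linarith⟩
        have := Int.le_of_dvd (by norm_num) this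
        omega
      have a1 : bp k - ap k ≤ Real.pi - 2 * Real.arctan (al k) :=
        arctan_le_of hLG (hd _ _) (hANG n p M gp ap bp hp k j1 hj1) hj1'
      have a2 : bp k - ap k ≤ Real.pi - 2 * Real.arctan (be k) :=
        arctan_le_of hLG (hd _ _) (hANG n p M gp ap bp hp k j2 hj2) hj2'
      have a3 : bp k - ap k ≤ Real.pi - 2 * Real.arctan y := by
        refine arctan_le_of hLG (hd _ _) (hANG n p M gp ap bp hp k (gq (K + 1)) hne1) ?_
        rw [hy, hgk]
        exact htnmono _ _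
      have a4 : bp k - ap k ≤ Real.pi - 2 * Real.arctan x := by
        refine arctan_le_of hLG (hd _ _) (hANG n p M gp ap bp hp k (gq (K - 1)) hne2) ?_
        rw [hx, hgk, htsym]
        exact htnmono _ _
      have hcx : x ≤ be k ∧ (if gq (K - 1) ∈ VA then x else 2 * x) = x ∨
          (if gq (K - 1) ∈ VA then x else 2 * x) = 2 * x := by
        by_cases hm : gq (K - 1) ∈ VA
        · left
          rw [if_pos hm]
          refine ⟨?_, rfl⟩
          have h1 := same_pred hφ hφM hφg hq.ginj k (mem_rng.1 hm)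
          rw [← hKdef] at h1
          rw [hx, hgk, h1]
          exact (htnmono _ _).trans hfbe
        · right
          rw [if_neg hm]
      have hcy : y ≤ al k ∧ (if gq (K + 1) ∈ VA then y else 2 * y) = y ∨
          (if gq (K + 1) ∈ VA then y else 2 * y) = 2 * y := by
        by_cases hm : gq (K + 1) ∈ VA
        · left
          rw [if_pos hm]
          refine ⟨?_, rfl⟩
          have h1 := same_succ hφ hφM hφg hq.ginj k (mem_rng.1 hm)
          rw [← hKdef] at h1
          rw [hy, hgk, h1]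
          exact (htnmono _ _).trans hfal
        · right
          rw [if_neg hm]
      have hfin := hVL (bq K - aq K) (bp k - ap k) (be k) (al k) x y _ _ hbe0 hal0 hx0 hy0 hε0 hεπ
        (by linarith) a2 a1 a4 a3 hN2 hcx hcy
      rw [e1, ecr]
      linarith
    · -- kink
      rw [← hkink, norm_kink _ _ _ _ (by linarith)] at hl'
      have h2 : (al k + be k) ^ 2 ≤ (bq K - aq K + x + y) ^ 2 := by
        calc (al k + be k) ^ 2 ≤ ‖AX.e (bq K) * (I - (y : ℂ)) + AX.e (aq K) * (-I - (x : ℂ))‖ ^ 2 :=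
              pow_le_pow_left₀ (by linarith) hl' 2
          _ = N2 (bq K - aq K) x y := hN.symm
          _ ≤ _ := hK _ _ _ hx0 hy0 hε0 hεπ
      have h3 : al k + be k ≤ bq K - aq K + x + y :=
        le_of_sq_le_sq h2 (by linarith)
      have h4 : x ≤ (if gq (K - 1) ∈ VA then x else 2 * x) := by split_ifs <;> linarith
      have h5 : y ≤ (if gq (K + 1) ∈ VA then y else 2 * y) := by split_ifs <;> linarith
      rw [e1, ecr]
      linarith
  -- summation
  have hs1 : ∑ k ∈ Finset.range M, ((bp (k : ℤ) - ap (k : ℤ)) + (al (k : ℤ) + be (k : ℤ))) ≤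
      ∑ k ∈ Finset.range M, (eF (gp (k : ℤ)) + cr (gp (k : ℤ))) :=
    Finset.sum_le_sum (fun k _ => hvert k)
  rw [Finset.sum_add_distrib, ← hPERHD n p M gp ap bp hp, hwsum, ← htan, hq2] at hs1
  rw [sum_rng hM hp.gper hp.ginj (fun i => eF i + cr i), Finset.sum_add_distrib] at hs1
  have hs2 : ∑ i ∈ rng gp, cr i ≤ ∑ j, 2 * t j := hCRED n nx VA t (fun j => htn0 _ _)
  have hs3 : ∑ i ∈ rng gp, eF i ≤ ∑ i, eF i :=
    Finset.sum_le_sum_of_subset_of_nonneg (Finset.subset_univ _) (fun i _ _ => (heF0 i).le)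
  have hs4 : ∑ i, eF i = per q := by
    rw [hPERHD n q n gq aq bq hq, ← rng_full hn hq.gper hq.ginj,
      ← sum_rng hn hq.gper hq.ginj eF]
    exact Finset.sum_congr rfl (fun k _ => heF k)
  have hs5 : ∑ j, 2 * t j = ∑ k ∈ Finset.range n, 2 * tn (q (gq (k : ℤ))) (q (gq ((k : ℤ) + 1))) := by
    rw [← rng_full hn hq.gper hq.ginj, ← sum_rng hn hq.gper hq.ginj (fun j => 2 * t j)]
    apply Finset.sum_congr rfl
    intro k _
    simp only [t]
    rw [hnx1]
  have := hmax.pos
  linarith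

end E5
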