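import Pool.Agent.Helper71.E5.FIVE2
import Pool.Agent.Helper71.E5.SAME
import Pool.Agent.Helper71.E5.AXAll
import Pool.Agent.Helper71.E5.WCFA
import Pool.Agent.Helper71.E5.NOCR
import Pool.Agent.Helper36.E5.ACT
import Pool.Agent.Helper93.E5.ANG
import Pool.Agent.Helper55.E5.CGPOS
import Pool.Agent.Helper36.E5.CGQ
import Pool.Agent.Helper36.E5.COLL
import Pool.Agent.Helper55.E5.CRED
import Pool.Agent.Helper55.E5.D2
import Pool.Agent.Helper26.E5.EFF
import Pool.Agent.Helper35.E5.EX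
import Pool.Agent.Helper72.E5.A
import Pool.Agent.Helper35.E5.FLAT
import Pool.Agent.Helper35.E5.FULL
import Pool.Agent.Helper26.E5.GAP
import Pool.Agent.Helper93.E5.HDX
import Pool.Agent.Helper55.E5.HDFULL
import Pool.Agent.Helper55.E5.HDREF
import Pool.Agent.Helper35.E5.INT
import Pool.Agent.Helper82.E5.KKT
import Pool.Agent.Helper36.E5.LG
import Pool.Agent.Helper55.E5.LOAD
import Pool.Agent.Helper29.E5.LOCP
import Pool.Agent.Helper55.E5.LOCQ
import Pool.Agent.Helper55.E5.NRM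
import Pool.Agent.Helper36.E5.ONARC
import Pool.Agent.Helper55.E5.ORD3
import Pool.Agent.Helper72.E5.PCONT
import Pool.Agent.Helper36.E5.PERHD
import Pool.Agent.Helper55.E5.SCALE
import Pool.Agent.Helper55.E5.SMALL
import Pool.Agent.Helper55.E5.TAN
import Pool.Agent.Helper26.E5.VL
import Pool.Agent.Helper82.E5.V1
import Pool.Agent.Helper93.E5.VRows
import Pool.Agent.Helper22.E5.FOLDP
import Pool.Agent.Helper22.E5.G1
import Pool.Agent.Helper38.E5.GEND
import Pool.Agent.Helper33.E5.WNORM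
import Pool.Agent.Helper36.E5W.HTEST
import Pool.Agent.Helper36.E5W.INHUB
import Pool.Agent.Helper36.E5W.TOURL
import Pool.Agent.Helper90.E5.KCC
import Pool.Agent.Helper90.E5.PDL
import Pool.Agent.Helper90.E5.MIR
import Pool.Agent.Helper49.E5.KXB
import Pool.Agent.Helper49.E5.WQ
import Pool.Agent.Helper49.E5.TRI
import Pool.Agent.Helper93.E5.KXE
import Pool.Agent.Helper99.E5.NKA
import Pool.Agent.Helper29.E5.ORI
import Pool.Agent.Helper29.E5.WP
import Pool.Agent.Helper72.E5.RP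
import Pool.Agent.Helper1.E5.SPKR
import Pool.Agent.Helper1.E5.SPK
import Pool.Agent.Helper1.E5.NOB
import Pool.Agent.Helper26.E5.TOR
import Pool.Agent.Helper26.E5.WWR
import Pool.Agent.Helper55.E5.WARC

/-! MP_efd95c_co: all module statements, closed. -/

set_option autoImplicit false

open scoped MeasureTheory ENNReal Topology
open Complex

noncomputable section

namespace E5

theorem rGAP : ST_GAP := GAP ONARC D2 LG
theorem rACT : ST_ACT := ACT rGAP PERHD
theorem rCGQ : ST_CGQ := CGQ ONARC rGAP D2 LG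
theorem rCGPOS : ST_CGPOS := CGPOS rCGQ
theorem rEFF : ST_EFF := EFF ONARC rGAP D2 LG
theorem rEX : ST_EX := EX PCONT PISO axKIRS
theorem rFULL : ST_FULL := FULL axKIRS PMONO
theorem rINT : ST_INT := INT axKIRS
theorem rKKT : ST_KKT := KKT rACT rGAP LOCP (LOCQ LOCP) D2
theorem rFLAT : ST_FLAT := FLAT rKKT rCGPOS
theorem rSMALL : ST_SMALL := SMALL PISO
theorem rSCALE : ST_SCALE := SCALE FIN
theorem rSAME : ST_SAME :=
  SAME_aux TAN LOAD rEFF rCGQ NRM ANG (VL V1) K CRED PERHD LG D2 rKKT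
theorem rTHREE : ST_THREE := THREE_aux ORD3 rSAME rFLAT COLL HDREF PISO
theorem rHTEST : ST_HTEST := HTEST TOURL rACT
theorem rINHUB : ST_INHUB := INHUB rFLAT ORI rHTEST
theorem rNKA : ST_NKA := NKA rFLAT rHTEST rGAP D2
theorem rG1C : ST_G1C := G1C ORI rFLAT
theorem rG1B : ST_G1B := G1B ORI rFLAT
theorem rWQ : ST_WQ := WQ ORI st_WARC st_WARC0 rGAP LG D2
theorem rWP : ST_WP := WP TRI st_WARC
theorem rGEND : ST_GEND := GEND HDx rGAP
theorem rNOB (h4 : Alex 4) (h3 : Alex 3) : ST_NOB :=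
  NOB h4 h3 ONARC LG D2 ORI (SPK ORI rCGPOS) rINHUB rG1B rNKA rKKT rWQ rWP

/-- the theorem for at most five disks, from the missing rows -/
theorem FIVE_of (hRQ : ST_RQ) (hTWO : ST_TWO) (hK0 : ST_K0) (hKE0 : ST_KE0) (hKYE : ST_KYE)
    (hKYX : ST_KYX) : ST_FIVE := by
  have h := FIVE_gen rSMALL rEX rFULL rINT HDx HDFULL TOUCH rTHREE rSAME PISO HDREF
  have h4 := h 4 (by omega) (by omega)
  have hWCF : ST_WCF := WCFA st_MIR st_MIRW (SPKR TRI) hTWO hK0 hKE0 hKYE KXE KXB hKYX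
  have hNOC : ST_NOC := NOCR rINHUB rHTEST rNKA rG1C hRQ RP rKKT st_KCC st_KQQ WWR st_POS st_PDL
    rGEND FOLDP st_TSYM (h4 4 le_rfl) (h4 3 (by omega)) rTHREE hWCF
  exact h 5 le_rfl (fun _ => WNORM hNOC (rNOB (h4 4 le_rfl) (h4 3 (by omega))))

end E5
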