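import Pool.Agent.Helper71.E5.Defs

/-!
MP_efd95c_co, Alexander's conjecture for at most five disks: module statements, part 1
(existence, hull data, first order conditions, flatness, same order).
Rows: table efd5rows. Put a proof of `ST_X` in `Pool/Agent/HelperNN/E5/X.lean` as
`theorem X : ST_X` (rows used as dependencies are hypotheses `(hY : ST_Y)` of the theorem, unless
they are already on main).
-/

set_option autoImplicit false

open scoped MeasureTheory ENNReal Topology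
open Complex

noncomputable section

namespace E5

/-! ### group A: the perimeter as a function of the centres -/

def ST_FIN : Prop := ∀ (n : ℕ) (c : Fin n → ℂ), μH[1] (frontier (AX.K 1 c)) ≠ ⊤

def ST_PMONO : Prop := ∀ (n m : ℕ) (c : Fin (n + 1) → ℂ) (d : Fin (m + 1) → ℂ),
  AX.K 1 c ⊆ AX.K 1 d → per c ≤ per d

def ST_PCONT : Prop := ∀ n : ℕ, Continuous (fun c : Fin n → ℂ => per c)

def ST_PISO : Prop := ∀ (n : ℕ) (c : Fin n → ℂ) (f : ℂ ≃ᵢ ℂ), per (fun i => f (c i)) = per c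

/-- relabelling of the indices -/
def ST_PPERM : Prop := ∀ (n : ℕ) (c : Fin n → ℂ) (σ : Equiv.Perm (Fin n)),
  per (fun i => c (σ i)) = per c

/-- existence of a maximal pair -/
def ST_EX : Prop := ∀ n : ℕ, ¬ Alex n → ∃ p q : Fin n → ℂ, MaxPair p q

def ST_INT : Prop := ∀ (n : ℕ) (p q : Fin n → ℂ), MaxPair p q →
  (interior (AX.K 1 p)).Nonempty ∧ (interior (AX.K 1 q)).Nonempty

/-- every disk of `q` contributes an arc -/
def ST_FULL : Prop := ∀ n : ℕ, Alex (n + 1) → ∀ p q : Fin (n + 2) → ℂ, MaxPair p q →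
  Function.Injective q ∧ ∀ i, ∃ a b : ℝ, a < b ∧ Set.Icc a b ⊆ AX.T 1 q i

/-- the known case: all circles of `p` touch (from `AX.ST_CPX` with `J = univ`) -/
def ST_TOUCH : Prop := ∀ (n : ℕ) (p q : Fin n → ℂ), Ctr p q →
  (∀ i, (AX.T 1 p i).Nonempty) → per p ≤ per q

/-- one disk, and no disk -/
def ST_SMALL : Prop := Alex 0 ∧ Alex 1

/-- scaling: from radius `1` to every radius, and from `ℂ` to the Euclidean plane -/
def ST_SCALE : Prop := ∀ n : ℕ, Alex n → ∀ (r : ℝ) (p q : Fin n → EuclideanSpace ℝ (Fin 2)),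
  0 < r → (∀ i j, dist (q i) (q j) ≤ dist (p i) (p j)) →
  μH[1] (frontier (⋂ i, Metric.closedBall (p i) r)) ≤
    μH[1] (frontier (⋂ i, Metric.closedBall (q i) r))

/-! ### group H: hull data -/

/-- the length functions -/
def ST_LG : Prop := (∀ x y : ℂ, lg x y = lg y x ∧ tn x y = tn y x ∧ om x y = om y x) ∧
  (∀ x y z w : ℂ, dist x y ≤ dist z w → lg x y ≤ lg z w) ∧
  (∀ x y z w : ℂ, dist x y ≤ dist z w → dist z w < 2 → tn x y ≤ tn z w) ∧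
  (∀ x y : ℂ, 0 ≤ lg x y ∧ lg x y ≤ Real.pi) ∧
  (∀ x y : ℂ, x ≠ y → 0 < lg x y) ∧
  (∀ x y : ℂ, dist x y < 2 → lg x y < Real.pi ∧ tn x y = Real.tan (lg x y / 2) ∧
    lg x y = 2 * Real.arctan (tn x y) ∧ 0 ≤ tn x y) ∧
  (∀ x y : ℂ, x ≠ y → dist x y < 2 → 0 < tn x y ∧ 0 < om x y ∧
    om x y = 1 / Real.sin (lg x y) ∧ om x y * dist x y ^ 2 = 2 * tn x y)

/-- points on a unit circle -/
def ST_ONARC : Prop := ∀ (x : ℂ) (s t : ℝ), s < t → t < s + Real.pi →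
  lg (x - AX.e s) (x - AX.e t) = t - s ∧ tn (x - AX.e s) (x - AX.e t) = Real.tan ((t - s) / 2) ∧
  (om (x - AX.e s) (x - AX.e t) : ℂ) * ((x - AX.e s) - (x - AX.e t)) =
    AX.e s * (I - (Real.tan ((t - s) / 2) : ℂ)) ∧
  (om (x - AX.e s) (x - AX.e t) : ℂ) * ((x - AX.e t) - (x - AX.e s)) =
    AX.e t * (-I - (Real.tan ((t - s) / 2) : ℂ))

/-- existence of hull data -/
def ST_HD : Prop := ∀ (n : ℕ) (c : Fin n → ℂ), 2 ≤ n → Function.Injective c →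
  (interior (AX.K 1 c)).Nonempty → ∃ (M : ℕ) (g : ℤ → Fin n) (a b : ℤ → ℝ), HD c M g a b

/-- hull data of a full family -/
def ST_HDFULL : Prop := ∀ (n : ℕ) (c : Fin n → ℂ) (M : ℕ) (g : ℤ → Fin n) (a b : ℤ → ℝ),
  HD c M g a b → (∀ i, ∃ s t : ℝ, s < t ∧ Set.Icc s t ⊆ AX.T 1 c i) → M = n ∧ ∀ k, a k < b k

/-- the perimeter is the sum of the contributed arcs -/
def ST_PERHD : Prop := ∀ (n : ℕ) (c : Fin n → ℂ) (M : ℕ) (g : ℤ → Fin n) (a b : ℤ → ℝ),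
  HD c M g a b → per c = ∑ k ∈ Finset.range M, (b (k : ℤ) - a (k : ℤ))

/-- distances are less than `2` -/
def ST_D2 : Prop := ∀ (n : ℕ) (c : Fin n → ℂ), (interior (AX.K 1 c)).Nonempty →
  ∀ i j, dist (c i) (c j) < 2

/-- exterior angle plus any arc is at most `π` -/
def ST_ANG : Prop := ∀ (n : ℕ) (c : Fin n → ℂ) (M : ℕ) (g : ℤ → Fin n) (a b : ℤ → ℝ),
  HD c M g a b → ∀ (k : ℤ) (j : Fin n), j ≠ g k → b k + lg (c (g k)) (c j) ≤ a k + Real.pi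

/-- passing over kinks -/
def ST_GAP : Prop := ∀ (n : ℕ) (c : Fin n → ℂ) (M : ℕ) (g : ℤ → Fin n) (a b : ℤ → ℝ),
  HD c M g a b → ∀ k l : ℤ, k < l → (∀ j, k < j → j < l → a j = b j) →
  a l - b k < Real.pi ∧ lg (c (g k)) (c (g l)) = a l - b k ∧
  c (g k) + AX.e (b k) = c (g l) + AX.e (a l)

/-- the tour through all fat and some kink indices has the right length -/
def ST_ACT : Prop := ∀ (n : ℕ) (c : Fin n → ℂ) (M : ℕ) (g : ℤ → Fin n) (a b : ℤ → ℝ),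
  HD c M g a b → ∀ S : Finset (Fin n), Adm g a b S →
  ctour c (lst g M S) = 2 * Real.pi - per c

/-- an increasing sequence of touching directions determines the perimeter -/
def ST_ORD : Prop := ∀ (n : ℕ) (c : Fin (n + 2) → ℂ) (t : Fin (n + 2) → ℝ),
  Function.Injective c → StrictMono t → t (Fin.last (n + 1)) < t 0 + 2 * Real.pi →
  (∀ k, t k ∈ AX.T 1 c k) →
  per c = 2 * Real.pi - ctour c (List.finRange (n + 2))

/-- the perimeter near a family with kinks -/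
def ST_LOCP : Prop := ∀ (n : ℕ) (c : Fin n → ℂ) (M : ℕ) (g : ℤ → Fin n) (a b : ℤ → ℝ),
  HD c M g a b → ∀ᶠ c' in 𝓝 c, ∃ S : Finset (Fin n), Adm g a b S ∧
    per c' = 2 * Real.pi - ctour c' (lst g M S)

/-- the perimeter near a full family -/
def ST_LOCQ : Prop := ∀ (n : ℕ) (c : Fin n → ℂ) (g : ℤ → Fin n) (a b : ℤ → ℝ),
  HD c n g a b → (∀ k, a k < b k) →
  ∀ᶠ c' in 𝓝 c, per c' = 2 * Real.pi - ctour c' (lst g n Finset.univ)

/-- shift of the numbering, reflection, relabelling -/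
def ST_HDSHIFT : Prop := ∀ (n : ℕ) (c : Fin n → ℂ) (M : ℕ) (g : ℤ → Fin n) (a b : ℤ → ℝ) (s : ℤ),
  HD c M g a b → HD c M (fun k => g (k + s)) (fun k => a (k + s)) (fun k => b (k + s))

def ST_HDREF : Prop := ∀ (n : ℕ) (c : Fin n → ℂ) (M : ℕ) (g : ℤ → Fin n) (a b : ℤ → ℝ),
  HD c M g a b → HD (fun i => (starRingEnd ℂ) (c i)) M (fun k => g (-k)) (fun k => -(b (-k)))
    (fun k => -(a (-k)))

def ST_HDPERM : Prop := ∀ (n : ℕ) (c : Fin n → ℂ) (M : ℕ) (g : ℤ → Fin n) (a b : ℤ → ℝ)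
  (σ : Equiv.Perm (Fin n)),
  HD c M g a b → HD (fun i => c (σ i)) M (fun k => σ.symm (g k)) a b

/-! ### group K: first order conditions -/

/-- Gordan's theorem -/
def ST_GORDAN : Prop := ∀ (κ ι : Type) [Fintype κ] [Fintype ι] [Nonempty κ] (v : κ → ι → ℂ),
  (∀ w : ι → ℂ, ∃ k, ∑ i, (v k i * (starRingEnd ℂ) (w i)).re ≤ 0) →
  ∃ c : κ → ℝ, (∀ k, 0 ≤ c k) ∧ ∑ k, c k = 1 ∧ ∀ i, ∑ k, (c k : ℂ) * v k i = 0

/-- derivative of the tour length -/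
def ST_DTOUR : Prop := ∀ (n : ℕ) (c h : Fin n → ℂ) (l : List (Fin n)), l.Nodup → 2 ≤ l.length →
  (∀ i ∈ l, ∀ j ∈ l, i ≠ j → c i ≠ c j ∧ dist (c i) (c j) < 2) →
  HasDerivAt (fun s : ℝ => ctour (fun i => c i + (s : ℂ) * h i) l)
    (∑ i, (cgrad c l i * (starRingEnd ℂ) (h i)).re) 0

/-- multipliers at a maximal pair -/
def ST_KKT : Prop := ∀ (n : ℕ) (p q : Fin n → ℂ) (M : ℕ) (gp : ℤ → Fin n) (ap bp : ℤ → ℝ)
  (gq : ℤ → Fin n) (aq bq : ℤ → ℝ), MaxPair p q → HD p M gp ap bp → HD q n gq aq bq →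
  (∀ k, aq k < bq k) → ∃ W θ, Crit p q M gp ap bp (lst gq n Finset.univ) W θ

/-- (a): stationarity under simultaneous scaling -/
def ST_TAN : Prop := ∀ (n : ℕ) (p q : Fin n → ℂ) (M : ℕ) (gp : ℤ → Fin n) (ap bp : ℤ → ℝ)
  (gq : ℤ → Fin n) (aq bq : ℤ → ℝ) (W : Fin n → Fin n → ℝ) (θ : Finset (Fin n) → ℝ),
  HD p M gp ap bp → HD q n gq aq bq →
  Crit p q M gp ap bp (lst gq n Finset.univ) W θ →
  ctan q (lst gq n Finset.univ) = ∑ S, θ S * ctan p (lst gp M S)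

/-- (b): comparison of the loads -/
def ST_LOAD : Prop := ∀ (n : ℕ) (p q : Fin n → ℂ) (M : ℕ) (gp : ℤ → Fin n) (ap bp : ℤ → ℝ)
  (Lq : List (Fin n)) (W : Fin n → Fin n → ℝ) (θ : Finset (Fin n) → ℝ), Ctr p q →
  Crit p q M gp ap bp Lq W θ →
  ∀ i, ‖∑ S, (θ S : ℂ) * cgrad p (lst gp M S) i‖ ≤ ‖cgrad q Lq i‖

/-- indices which are not in the list have no load -/
def ST_CG0 : Prop := ∀ (n : ℕ) (c : Fin n → ℂ) (l : List (Fin n)) (i : Fin n), i ∉ l →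
  cgrad c l i = 0

/-- loads of a full family -/
def ST_CGQ : Prop := ∀ (n : ℕ) (c : Fin n → ℂ) (g : ℤ → Fin n) (a b : ℤ → ℝ),
  HD c n g a b → (∀ k, cgrad c (lst g n Finset.univ) (g k) =
      AX.e (b k) * (I - (tn (c (g k)) (c (g (k + 1))) : ℂ)) +
      AX.e (a k) * (-I - (tn (c (g (k - 1))) (c (g k)) : ℂ))) ∧
  ctan c (lst g n Finset.univ) =
    ∑ k ∈ Finset.range n, 2 * tn (c (g (k : ℤ))) (c (g ((k : ℤ) + 1)))

/-- norm of a load -/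
def ST_NRM : Prop := ∀ a b x y : ℝ,
  ‖AX.e b * (I - (x : ℂ)) + AX.e a * (-I - (y : ℂ))‖ ^ 2 = N2 (b - a) y x

/-- the load of a full family does not vanish -/
def ST_CGPOS : Prop := ∀ (n : ℕ) (c : Fin n → ℂ) (g : ℤ → Fin n) (a b : ℤ → ℝ),
  HD c n g a b → (∀ k, a k < b k) → ∀ i, cgrad c (lst g n Finset.univ) i ≠ 0

/-- effective half tangents -/
def ST_EFF : Prop := ∀ (n : ℕ) (p : Fin n → ℂ) (M : ℕ) (g : ℤ → Fin n) (a b : ℤ → ℝ)
  (θ : Finset (Fin n) → ℝ), HD p M g a b → (∀ S, 0 ≤ θ S) → ∑ S, θ S = 1 →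
  (∀ S, θ S ≠ 0 → Adm g a b S) →
  ∃ w al be : ℤ → ℝ,
    (∀ k, w (k + M) = w k ∧ al (k + M) = al k ∧ be (k + M) = be k) ∧
    (∀ k, 0 ≤ w k ∧ w k ≤ 1 ∧ 0 ≤ al k ∧ 0 ≤ be k) ∧
    (∀ k, a k < b k → w k = 1 ∧ tn (p (g k)) (p (g (k + 1))) ≤ al k ∧
      tn (p (g (k - 1))) (p (g k)) ≤ be k) ∧
    (∀ k, (∃ j, j ≠ g k ∧ al k ≤ tn (p (g k)) (p j)) ∧
      (∃ j, j ≠ g k ∧ be k ≤ tn (p (g k)) (p j))) ∧
    (∀ k, ∑ S, (θ S : ℂ) * cgrad p (lst g M S) (g k) =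
      AX.e (b k) * ((w k : ℂ) * I - (al k : ℂ)) + AX.e (a k) * (-((w k : ℂ) * I) - (be k : ℂ))) ∧
    ∑ k ∈ Finset.range M, (al (k : ℤ) + be (k : ℤ)) = ∑ S, θ S * ctan p (lst g M S)

/-! ### group F: interior points and the same order -/

/-- interior points lie in the flat polygon -/
def ST_FLAT : Prop := ∀ (n : ℕ) (p q : Fin n → ℂ) (M : ℕ) (gp : ℤ → Fin n) (ap bp : ℤ → ℝ)
  (gq : ℤ → Fin n) (aq bq : ℤ → ℝ), MaxPair p q → HD p M gp ap bp → HD q n gq aq bq →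
  (∀ k, aq k < bq k) → ∀ i, p i ∈ convexHull ℝ (Set.range (fun k => p (gp k)))

/-- moving a slack point does not change the hull data (used for `ST_FLAT`) -/
def ST_SLACK : Prop := ∀ (n : ℕ) (p : Fin n → ℂ) (M : ℕ) (g : ℤ → Fin n) (a b : ℤ → ℝ)
  (k : Fin n) (v : ℂ), HD p M g a b → AX.T 1 p k = ∅ →
  ∀ᶠ s : ℝ in 𝓝 (0 : ℝ), HD (Function.update p k (p k + (s : ℂ) * v)) M g a b ∧
    per (Function.update p k (p k + (s : ℂ) * v)) = per p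

/-- points on a segment -/
def ST_COLL : Prop := ∀ (n : ℕ) (p q : Fin (n + 2) → ℂ), Ctr p q → Function.Injective q →
  (∀ i, (AX.T 1 q i).Nonempty) → (∃ u v, ∀ i, p i ∈ segment ℝ (p u) (p v)) → per p ≤ per q

/-- bookkeeping of the credits -/
def ST_CRED : Prop := ∀ (n : ℕ) (nx : Equiv.Perm (Fin n)) (A : Finset (Fin n)) (t : Fin n → ℝ),
  (∀ j, 0 ≤ t j) →
  ∑ i ∈ A, ((if nx i ∈ A then t i else 2 * t i) +
    (if nx.symm i ∈ A then t (nx.symm i) else 2 * t (nx.symm i))) ≤ ∑ j, 2 * t j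

/-- no maximal pair in the same order -/
def ST_SAME : Prop := ∀ (n : ℕ) (p q : Fin n → ℂ) (M : ℕ) (gp : ℤ → Fin n) (ap bp : ℤ → ℝ)
  (gq : ℤ → Fin n) (aq bq : ℤ → ℝ), MaxPair p q → HD p M gp ap bp → HD q n gq aq bq →
  (∀ k, aq k < bq k) → SameOrd gp M gq n → False

/-- at most three touching circles -/
def ST_THREE : Prop := ∀ (n : ℕ) (p q : Fin n → ℂ) (M : ℕ) (gp : ℤ → Fin n) (ap bp : ℤ → ℝ)
  (gq : ℤ → Fin n) (aq bq : ℤ → ℝ), MaxPair p q → HD p M gp ap bp → HD q n gq aq bq →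
  (∀ k, aq k < bq k) → M ≤ 3 → False

/-- cyclic orders of three indices -/
def ST_ORD3 : Prop := ∀ (n : ℕ) (gp gq : ℤ → Fin n), (∀ k, gp (k + 3) = gp k) →
  (∀ k l, gp k = gp l → (3 : ℤ) ∣ l - k) → (∀ k, gq (k + n) = gq k) →
  (∀ k l, gq k = gq l → (n : ℤ) ∣ l - k) → 
  SameOrd gp 3 gq n ∨ SameOrd gp 3 (fun k => gq (-k)) n

/-- wheels: four touching circles and one interior point, different cyclic orders -/
def ST_WHEEL : Prop := ∀ (p q : Fin 5 → ℂ) (gp : ℤ → Fin 5) (ap bp : ℤ → ℝ)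
  (gq : ℤ → Fin 5) (aq bq : ℤ → ℝ), MaxPair p q → HD p 4 gp ap bp → HD q 5 gq aq bq →
  (∀ k, aq k < bq k) → ¬ SameOrd gp 4 gq 5 → ¬ SameOrd gp 4 (fun k => gq (-k)) 5 → False

/-- the theorem -/
def ST_FIVE : Prop := ∀ n : ℕ, n ≤ 5 → Alex n

end E5
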