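import Pool.Agent.Helper71.E5.Stmts

/-!
MP_efd95c_co, Alexander's conjecture for at most five disks: wheels. Definitions.

Names (type C): hub `0`, rim `1 = a`, `2 = x`, `3 = y`, `4 = b`. The hull order of `q` is
`0, a, x, y, b` (counterclockwise, `gQ`), the hull order of the four touching points of `p` is
`a, y, x, b` (`gC`, type C) or `a, x, b, y` (`gB`, type B); the hub is the origin for both.
-/

set_option autoImplicit false

open scoped MeasureTheory ENNReal Topology
open Complex

noncomputable section

namespace E5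

/-- hull order of `q` -/
def gQ (k : ℤ) : Fin 5 :=
  if k % 5 = 0 then 0 else if k % 5 = 1 then 1 else if k % 5 = 2 then 2 else
    if k % 5 = 3 then 3 else 4

/-- hull order of `p`, type C: `a, y, x, b` -/
def gC (k : ℤ) : Fin 5 :=
  if k % 4 = 0 then 1 else if k % 4 = 1 then 3 else if k % 4 = 2 then 2 else 4

/-- hull order of `p`, type B: `a, x, b, y` -/
def gB (k : ℤ) : Fin 5 :=
  if k % 4 = 0 then 1 else if k % 4 = 1 then 2 else if k % 4 = 2 then 4 else 3

/-- the cross product -/
def crs (u v : ℂ) : ℝ := ((starRingEnd ℂ) u * v).im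

/-! Triangle functions: vertex `i` at distance `r` from the hub, vertex `j` at distance `s`, hub
angle `θ`. -/

/-- chord `|ij|` -/
def ch (r s θ : ℝ) : ℝ := Real.sqrt (r ^ 2 + s ^ 2 - 2 * r * s * Real.cos θ)

/-- half arc `d_ij` -/
def hd (r s θ : ℝ) : ℝ := Real.arcsin (ch r s θ / 2)

/-- chord angle `u_i^j` at the vertex `i` (between the directions to the hub and to `j`) -/
def un (r s θ : ℝ) : ℝ := Complex.arg ((r : ℂ) - (s : ℂ) * AX.e (-θ))

/-- arc angle `U_i^j = u_i^j + d_ij` -/
def UU (r s θ : ℝ) : ℝ := un r s θ + hd r s θ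

/-- half tangent `T_ij` -/
def TT (r s θ : ℝ) : ℝ := Real.tan (hd r s θ)

/-- torque `t_ij` -/
def tq (r s θ : ℝ) : ℝ := r * s * Real.sin θ / (ch r s θ * Real.cos (hd r s θ))

/-- half arc of a spoke -/
def h0 (r : ℝ) : ℝ := Real.arcsin (r / 2)

/-- the arc force at a vertex in the frame of the vertex (hub direction = positive real axis), with
weight `w` of the tangential part and effective half tangent `τ`: `z = e^{iU} (w - i τ)` -/
def zf (U w τ : ℝ) : ℂ := AX.e U * ((w : ℂ) - (τ : ℂ) * I)

end E5
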